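import Pool.Agent.H568.NC.Defs

/-!
# NC-3 (job 2020, written by helper790): one point filter spaces and sums are Tychonoff
-/

set_option autoImplicit false

namespace Pool.Agent.H568.NC

open Set Filter Topology

noncomputable section

namespace FSp

/-- The topology of the filter space. -/
def top {J : Type} (F : Set (Filter J)) : TopologicalSpace (Option J) where
  IsOpen U := none ∈ U → ∀ c ∈ F, some ⁻¹' U ∈ c
  isOpen_univ := fun _ c _ => by
    rw [preimage_univ]; exact univ_mem
  isOpen_inter := fun U V hU hV h c hc => by
    rw [preimage_inter]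
    exact inter_mem (hU h.1 c hc) (hV h.2 c hc)
  isOpen_sUnion := fun S hS h c hc => by
    obtain ⟨U, hU, hn⟩ := h
    refine mem_of_superset (hS U hU hn c hc) ?_
    exact preimage_mono (subset_sUnion_of_mem hU)

theorem clopen_sep {X : Type} [TopologicalSpace X] {S K : Set X} {x : X} (hS : IsClopen S)
    (hx : x ∈ S) (hK : Disjoint S K) :
    ∃ f : X → unitInterval, Continuous f ∧ f x = 0 ∧ EqOn f 1 K := by
  classical
  refine ⟨S.piecewise (fun _ => 0) (fun _ => 1), ?_, ?_, ?_⟩
  · refine Continuous.piecewise ?_ continuous_const continuous_const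
    intro a ha
    rw [hS.frontier_eq] at ha
    exact ha.elim
  · rw [piecewise_eq_of_mem _ _ _ hx]
  · intro y hy
    have : y ∉ S := fun h => hK.le_bot ⟨h, hy⟩
    rw [piecewise_eq_of_notMem _ _ _ this]
    rfl

end FSp

theorem exists_filterSpace {J : Type} (F : Set (Filter J)) (hF : ∀ c ∈ F, c ≤ cofinite) :
    ∃ t : TopologicalSpace (Option J), @T35Space _ t ∧
      ∀ f : Option J → ℝ, (@Continuous _ _ t _ f ↔
        ∀ c ∈ F, Tendsto (fun j => f (some j)) c (𝓝 (f none))) := by
  letI t : TopologicalSpace (Option J) := FSp.top F
  refine ⟨t, ?_, ?_⟩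
  · have hopen : ∀ U : Set (Option J), none ∉ U → IsOpen U := fun U hU h => (hU h).elim
    have hsing : ∀ j : J, IsClopen ({some j} : Set (Option J)) := by
      intro j
      refine ⟨⟨?_⟩, hopen _ (by simp)⟩
      intro _ c hc
      have h1 : (some ⁻¹' ({some j} : Set (Option J))ᶜ) = ({j} : Set J)ᶜ := by
        ext x; simp
      rw [h1]
      exact hF c hc (by simp)
    have h0 : T0Space (Option J) := by
      rw [t0Space_iff_exists_isOpen_xor'_mem]
      intro x y hxy
      cases x with
      | some j =>
        refine ⟨{some j}, (hsing j).2, Or.inl ⟨rfl, ?_⟩⟩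
        intro h
        exact hxy h.symm
      | none =>
        cases y with
        | some j =>
          refine ⟨{some j}, (hsing j).2, Or.inr ⟨rfl, ?_⟩⟩
          intro h
          exact hxy h
        | none => exact (hxy rfl).elim
    have h1 : CompletelyRegularSpace (Option J) := by
      constructor
      intro x K hK hx
      cases x with
      | some j =>
        refine FSp.clopen_sep (hsing j) rfl ?_
        rw [disjoint_singleton_left]
        exact hx
      | none =>
        refine FSp.clopen_sep (S := Kᶜ) ⟨?_, hK.isOpen_compl⟩ hx disjoint_compl_left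
        refine ⟨hopen _ ?_⟩
        rw [compl_compl]
        exact hx
    exact { toT0Space := h0, toCompletelyRegularSpace := h1 }
  · intro f
    constructor
    · intro hf c hc
      rw [tendsto_def]
      intro V hV
      obtain ⟨V', h1, h2, h3⟩ := mem_nhds_iff.1 hV
      have h4 : IsOpen (f ⁻¹' V') := h2.preimage hf
      exact mem_of_superset (h4 h3 c hc) (fun j hj => h1 hj)
    · intro h
      rw [continuous_def]
      intro V hV hn c hc
      exact h c hc (hV.mem_nhds hn)

theorem t35Space_sum {X Z : Type} [TopologicalSpace X] [TopologicalSpace Z] [T35Space X]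
    [T35Space Z] : T35Space (X ⊕ Z) := by
  have h1 : CompletelyRegularSpace (X ⊕ Z) := by
    constructor
    intro x K hK hx
    cases x with
    | inl x =>
      obtain ⟨f, hf, h0, h1⟩ := CompletelyRegularSpace.completely_regular x (Sum.inl ⁻¹' K)
        (hK.preimage continuous_inl) hx
      refine ⟨Sum.elim f (fun _ => 1), ?_, h0, ?_⟩
      · exact hf.sumElim continuous_const
      · intro y hy
        cases y with
        | inl y => exact h1 hy
        | inr y => rfl
    | inr x =>
      obtain ⟨f, hf, h0, h1⟩ := CompletelyRegularSpace.completely_regular x (Sum.inr ⁻¹' K)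
        (hK.preimage continuous_inr) hx
      refine ⟨Sum.elim (fun _ => 1) f, ?_, h0, ?_⟩
      · exact continuous_const.sumElim hf
      · intro y hy
        cases y with
        | inl y => rfl
        | inr y => exact h1 hy
  have h0 : T0Space (X ⊕ Z) := inferInstance
  exact { toT0Space := h0, toCompletelyRegularSpace := h1 }

end

end Pool.Agent.H568.NC
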