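import Pool.Agent.H568.NC.Defs

/-!
# NC-4 (job 2021, written by helper790): the metrizable space `ℕ + Y` over the Cantor set
-/

set_option autoImplicit false

namespace Pool.Agent.H568.NC

open Set Filter Topology

noncomputable section

namespace MSp

theorem nhds_cyl {y : ℕ → Bool} {W : Set (ℕ → Bool)} (hW : W ∈ 𝓝 y) :
    ∃ N : ℕ, ∀ z : ℕ → Bool, (∀ i < N, z i = y i) → z ∈ W := by
  obtain ⟨W', h1, h2, h3⟩ := mem_nhds_iff.1 hW
  rw [isOpen_pi_iff] at h2
  obtain ⟨I, u, hu, hsub⟩ := h2 y h3
  refine ⟨I.sup id + 1, fun z hz => h1 (hsub ?_)⟩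
  intro a ha
  have h4 : a ≤ I.sup id := Finset.le_sup (f := id) ha
  have h5 : z a = y a := hz a (by omega)
  show z a ∈ u a
  rw [h5]
  exact (hu a ha).2

theorem exists_lab (y : ℕ → Bool) (N : ℕ) : ∃ t, N ≤ t ∧ ∀ i < N, lab t i = y i := by
  have h1 : Nat.ofBits (fun i : Fin N => y i) < 2 ^ N := Nat.ofBits_lt_two_pow _
  have h2 : N < 2 ^ N := Nat.lt_two_pow_self
  refine ⟨2 ^ N + Nat.ofBits (fun i : Fin N => y i) - 1, by omega, fun i hi => ?_⟩
  show Nat.testBit (2 ^ N + Nat.ofBits (fun i : Fin N => y i) - 1 + 1) i = y i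
  rw [show 2 ^ N + Nat.ofBits (fun i : Fin N => y i) - 1 + 1 =
    2 ^ N + Nat.ofBits (fun i : Fin N => y i) by omega]
  rw [Nat.testBit_two_pow_add_gt hi, Nat.testBit_ofBits_lt _ _ hi]

theorem fy_neBot (y : ℕ → Bool) : (Fy y).NeBot := by
  unfold Fy
  rw [inf_neBot_iff]
  intro s hs s' hs'
  obtain ⟨W, hW, hWs⟩ := mem_comap.1 hs
  obtain ⟨m, hm⟩ := mem_atTop_sets.1 hs'
  obtain ⟨N, hN⟩ := nhds_cyl hW
  obtain ⟨t, ht, ht2⟩ := exists_lab y (max N m)
  refine ⟨t, hWs (hN _ fun i hi => ht2 i (lt_of_lt_of_le hi (le_max_left _ _))), hm t ?_⟩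
  exact (le_max_right _ _).trans ht

theorem open_coord (k : ℕ) (b : Bool) : IsOpen {p : (ℕ → Bool) × (ℕ → Bool) | p.2 k = b} := by
  have h : Continuous (fun p : (ℕ → Bool) × (ℕ → Bool) => p.2 k) := by fun_prop
  exact (isOpen_discrete ({b} : Set Bool)).preimage h

/-- The injection. -/
def im (Y : Set (ℕ → Bool)) : ℕ ⊕ Y → (ℕ → Bool) × (ℕ → Bool)
  | Sum.inl t => (lab t, fun k => decide (k < t))
  | Sum.inr y => (y.1, fun _ => true)

theorem im_inj (Y : Set (ℕ → Bool)) : Function.Injective (im Y) := by
  intro a b hab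
  cases a with
  | inl t =>
    cases b with
    | inl t' =>
      have h := congrArg Prod.snd hab
      have h1 : ∀ k, decide (k < t) = decide (k < t') := fun k => congrFun h k
      have h2 := h1 t
      have h3 := h1 t'
      simp at h2 h3
      congr 1
      omega
    | inr y =>
      have h := congrArg Prod.snd hab
      have h1 : decide (t < t) = true := congrFun h t
      simp at h1
  | inr y =>
    cases b with
    | inl t =>
      have h := congrArg Prod.snd hab
      have h1 : true = decide (t < t) := congrFun h t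
      simp at h1
    | inr y' =>
      have h := congrArg Prod.fst hab
      congr 1
      exact Subtype.ext h

end MSp

theorem exists_M (Y : Set (ℕ → Bool)) :
    ∃ t : TopologicalSpace (ℕ ⊕ Y), @T35Space _ t ∧
      (∀ f : ℕ ⊕ Y → ℝ, (@Continuous _ _ t _ f ↔
        ∀ y : Y, Tendsto (fun n => f (Sum.inl n)) (Fy y) (𝓝 (f (Sum.inr y))))) ∧
      @IsClosedEmbedding Y (ℕ ⊕ Y) _ t Sum.inr := by
  let t : TopologicalSpace (ℕ ⊕ Y) := TopologicalSpace.induced (MSp.im Y) inferInstance
  have hemb : @IsEmbedding _ _ t _ (MSp.im Y) := by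
    letI := t
    exact ⟨⟨rfl⟩, MSp.im_inj Y⟩
  -- the neighbourhoods
  have hnh : ∀ x : ℕ ⊕ Y, @nhds _ t x = comap (MSp.im Y) (𝓝 (MSp.im Y x)) := by
    intro x
    exact nhds_induced _ _
  have hlim : ∀ y : Y, Tendsto (Sum.inl : ℕ → ℕ ⊕ Y) (Fy y) (@nhds _ t (Sum.inr y)) := by
    intro y
    rw [hnh, tendsto_comap_iff]
    show Tendsto (fun n : ℕ => ((lab n, fun k => decide (k < n)) : (ℕ → Bool) × (ℕ → Bool)))
      (Fy y) (𝓝 (y.1, fun _ => true))
    rw [nhds_prod_eq]
    refine Tendsto.prodMk ?_ ?_
    · exact tendsto_comap.mono_left inf_le_left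
    · rw [tendsto_pi_nhds]
      intro k
      refine Tendsto.mono_left ?_ (inf_le_right : Fy y ≤ atTop)
      refine tendsto_const_nhds.congr' ?_
      filter_upwards [eventually_gt_atTop k] with n hn
      simp [hn]
  refine ⟨t, ?_, ?_, ?_⟩
  · letI := t
    exact hemb.t35Space
  · intro f
    constructor
    · intro hf y
      exact ((@Continuous.tendsto _ _ t _ f hf (Sum.inr y)).comp (hlim y))
    · intro h
      letI := t
      rw [continuous_iff_continuousAt]
      intro x
      cases x with
      | inl n =>
        -- isolated point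
        have hs : ({Sum.inl n} : Set (ℕ ⊕ Y)) ∈ 𝓝 (Sum.inl n) := by
          rw [hnh, mem_comap]
          refine ⟨{p | p.2 n = false ∧ ∀ k < n, p.2 k = true}, ?_, ?_⟩
          · refine IsOpen.mem_nhds ?_ ?_
            · have h1 : IsOpen {p : (ℕ → Bool) × (ℕ → Bool) | p.2 n = false} :=
                MSp.open_coord n false
              have h2 : IsOpen (⋂ k ∈ Set.Iio n, {p : (ℕ → Bool) × (ℕ → Bool) | p.2 k = true}) :=
                (Set.finite_Iio n).isOpen_biInter fun k _ => MSp.open_coord k true
              have h3 : {p : (ℕ → Bool) × (ℕ → Bool) | p.2 n = false ∧ ∀ k < n, p.2 k = true} =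
                  {p | p.2 n = false} ∩ ⋂ k ∈ Set.Iio n, {p | p.2 k = true} := by
                ext p
                simp
              rw [h3]
              exact h1.inter h2
            · show decide (n < n) = false ∧ ∀ k < n, decide (k < n) = true
              refine ⟨by simp, fun k hk => by simp [hk]⟩
          · rintro x ⟨h1, h2⟩
            cases x with
            | inl m =>
              have h1' : decide (n < m) = false := h1
              have h2' : ∀ k < n, decide (k < m) = true := h2
              simp only [decide_eq_false_iff_not, decide_eq_true_eq] at h1' h2'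
              have : m = n := by
                by_contra hne
                have h4 : m < n := by omega
                have := h2' m h4
                omega
              rw [this]
              rfl
            | inr y =>
              have h1' : true = false := h1
              exact absurd h1' (by simp)
        have hp : 𝓝 (Sum.inl n : ℕ ⊕ Y) = pure (Sum.inl n) := by
          refine le_antisymm ?_ (pure_le_nhds _)
          rw [le_pure_iff]
          exact hs
        rw [ContinuousAt, hp]
        exact tendsto_pure_nhds _ _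
      | inr y =>
        rw [ContinuousAt, (closed_nhds_basis (f (Sum.inr y))).tendsto_right_iff]
        rintro V ⟨hV, hVc⟩
        have h1 := h y hV
        rw [mem_map, Fy, mem_inf_iff] at h1
        obtain ⟨s, hs, s', hs', hss⟩ := h1
        obtain ⟨W, hW, hWs⟩ := mem_comap.1 hs
        obtain ⟨m, hm⟩ := mem_atTop_sets.1 hs'
        obtain ⟨W', hW1, hW2, hW3⟩ := mem_nhds_iff.1 hW
        have key : ∀ n, lab n ∈ W' → m ≤ n → f (Sum.inl n) ∈ V := by
          intro n hn1 hn2
          have : n ∈ s ∩ s' := ⟨hWs (hW1 hn1), hm n hn2⟩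
          rw [← hss] at this
          exact this
        rw [hnh]
        refine mem_of_superset (preimage_mem_comap (IsOpen.mem_nhds
          (s := {p : (ℕ → Bool) × (ℕ → Bool) | p.1 ∈ W' ∧ p.2 m = true}) ?_ ⟨hW3, rfl⟩)) ?_
        · exact (hW2.preimage continuous_fst).inter (MSp.open_coord m true)
        · rintro x ⟨hx1, hx2⟩
          cases x with
          | inl n =>
            have hx2' : decide (m < n) = true := hx2
            simp only [decide_eq_true_eq] at hx2'
            exact key n hx1 hx2'.le
          | inr y' =>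
            haveI := MSp.fy_neBot y'
            refine hVc.mem_of_tendsto (h y') ?_
            have e1 : ∀ᶠ n in Fy y', lab n ∈ W' := by
              have : W' ∈ 𝓝 (y' : ℕ → Bool) := hW2.mem_nhds hx1
              exact (inf_le_left : Fy y' ≤ _) (preimage_mem_comap this)
            have e2 : ∀ᶠ n in Fy y', m ≤ n :=
              (inf_le_right : Fy y' ≤ atTop) (eventually_ge_atTop m)
            filter_upwards [e1, e2] with n h1 h2 using key n h1 h2
  · letI := t
    have hc : Continuous (Sum.inr : Y → ℕ ⊕ Y) := by
      rw [continuous_induced_rng]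
      exact continuous_subtype_val.prodMk continuous_const
    have he : IsEmbedding (MSp.im Y ∘ (Sum.inr : Y → ℕ ⊕ Y)) := by
      have h1 : IsEmbedding (Prod.fst ∘ (MSp.im Y ∘ (Sum.inr : Y → ℕ ⊕ Y))) :=
        IsEmbedding.subtypeVal
      exact IsEmbedding.of_comp (hemb.continuous.comp hc) continuous_fst h1
    refine ⟨IsEmbedding.of_comp hc hemb.continuous he, ?_⟩
    have hr : range (Sum.inr : Y → ℕ ⊕ Y) =
        MSp.im Y ⁻¹' {p : (ℕ → Bool) × (ℕ → Bool) | p.2 = fun _ => true} := by
      ext x
      cases x with
      | inl n =>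
        simp only [mem_range, reduceCtorEq, exists_false, mem_preimage, mem_ofPred_eq, false_iff]
        intro h
        have := congrFun h n
        simp [MSp.im] at this
      | inr y =>
        simp only [mem_range, Sum.inr.injEq, exists_eq, mem_preimage, mem_ofPred_eq, true_iff]
        rfl
    rw [hr]
    exact (isClosed_eq continuous_snd continuous_const).preimage hemb.continuous

end

end Pool.Agent.H568.NC
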