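import Pool.Agent.H568.NC.Defs

/-!
A non-analytic subset of the Cantor set, and closed embeddings of such sets.
-/

set_option autoImplicit false

namespace Pool.Agent.H568.NC

open Set Filter Topology

noncomputable section

/-- An injection of a set of size at most continuum into the Cantor set. -/
private def codeOpt : Option (ℕ → ℕ → Bool) → (ℕ → Bool)
  | none => fun _ => false
  | some x => fun n => match n with
    | 0 => true
    | m + 1 => x (Nat.unpair m).1 (Nat.unpair m).2

private lemma codeOpt_injective : Function.Injective codeOpt := by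
  intro a b h
  cases a with
  | none =>
    cases b with
    | none => rfl
    | some y =>
      have := congrFun h 0
      simp [codeOpt] at this
  | some x =>
    cases b with
    | none =>
      have := congrFun h 0
      simp [codeOpt] at this
    | some y =>
      congr 1
      funext i j
      have := congrFun h (Nat.pair i j + 1)
      simpa [codeOpt] using this

theorem exists_not_analyticSet : ∃ Y : Set (ℕ → Bool), ¬ MeasureTheory.AnalyticSet Y := by
  classical
  by_contra hcon
  push Not at hcon
  have h1 : ∀ Y : Set (ℕ → Bool), Y = ∅ ∨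
      ∃ f : (ℕ → ℕ) → (ℕ → Bool), Continuous f ∧ range f = Y := by
    intro Y
    have := hcon Y
    rwa [MeasureTheory.AnalyticSet] at this
  choose! F hF using fun (Y : Set (ℕ → Bool)) (hY : Y ≠ ∅) => (h1 Y).resolve_left hY
  let G : Set (ℕ → Bool) → Option (ℕ → ℕ → Bool) := fun Y =>
    if Y = ∅ then none else some fun n => F Y (TopologicalSpace.denseSeq (ℕ → ℕ) n)
  have hG : Function.Injective G := by
    intro A B hAB
    by_cases hA : A = ∅
    · by_cases hB : B = ∅
      · rw [hA, hB]
      · simp [G, hA, hB] at hAB
    · by_cases hB : B = ∅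
      · simp [G, hA, hB] at hAB
      · simp only [G, hA, hB, if_false, Option.some.injEq] at hAB
        have h2 : F A = F B := by
          refine Continuous.ext_on (TopologicalSpace.denseRange_denseSeq (ℕ → ℕ))
            (hF A hA).1 (hF B hB).1 ?_
          rintro _ ⟨n, rfl⟩
          exact congrFun hAB n
        rw [← (hF A hA).2, ← (hF B hB).2, h2]
  exact Function.cantor_injective _ (codeOpt_injective.comp hG)

theorem not_analytic_of_isClosedEmbedding {Y : Set (ℕ → Bool)} (hY : ¬ MeasureTheory.AnalyticSet Y)
    {Z : Type} [TopologicalSpace Z] (e : Y → Z) (he : IsClosedEmbedding e) :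
    ¬ ∃ p : (ℕ → ℕ) → Z, Continuous p ∧ Function.Surjective p := by
  rintro ⟨p, hp, hsurj⟩
  apply hY
  have hC : IsClosed (p ⁻¹' range e) := he.isClosed_range.preimage hp
  have hpol : PolishSpace (p ⁻¹' range e) := hC.polishSpace
  have hch : ∀ z : p ⁻¹' range e, ∃ y : Y, e y = p z := fun z => z.2
  choose q hq using hch
  have hqc : Continuous q := by
    rw [he.isEmbedding.continuous_iff]
    have : e ∘ q = fun z : p ⁻¹' range e => p z := funext hq
    rw [this]
    exact hp.comp continuous_subtype_val
  have hr : range (fun z => (q z : ℕ → Bool)) = Y := by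
    apply Subset.antisymm
    · rintro _ ⟨z, rfl⟩
      exact (q z).2
    · intro y hy
      obtain ⟨z, hz⟩ := hsurj (e ⟨y, hy⟩)
      refine ⟨⟨z, ⟨⟨y, hy⟩, hz.symm⟩⟩, ?_⟩
      have h3 : q ⟨z, ⟨⟨y, hy⟩, hz.symm⟩⟩ = ⟨y, hy⟩ :=
        he.injective ((hq _).trans hz)
      exact congrArg Subtype.val h3
  rw [← hr]
  exact MeasureTheory.analyticSet_range_of_polishSpace (continuous_subtype_val.comp hqc)

end

end Pool.Agent.H568.NC
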