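import Pool.Agent.H568.NC.Ray

/-!
Absorption of positive functions by real ones.
-/

set_option autoImplicit false

namespace Pool.Agent.H568.NC

open Set Filter Topology

noncomputable section

/-- Nonnegative functions tending to `0` along all filters of `F`. -/
def E0 {I : Type} (F : Set (Filter I)) : Set (I → ℝ) :=
  {h | (∀ i, 0 ≤ h i) ∧ ∀ c ∈ F, Tendsto h c (𝓝 0)}

lemma Sb_snd {N : ℕ} (p : ℝ × (ℕ → ℝ)) {n : ℕ} (hn : n < N) : (Sb N p).2 n = p.2 n := by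
  simp [Sb, hn]

lemma Sb_fst_le {N : ℕ} {p : ℝ × (ℕ → ℝ)} (hp : 0 ≤ p.1) :
    (Sb N p).1 ≤ p.1 + 2 * (1 / 2) ^ N := by
  have := le_Sf_fst N (Sb N p)
  rwa [Sf_Sb hp] at this

lemma le_Sb_fst {N : ℕ} {p : ℝ × (ℕ → ℝ)} (hp : 0 ≤ p.1) : p.1 ≤ (Sb N p).1 := by
  have := Sf_fst_le N (Sb N p)
  rwa [Sf_Sb hp] at this

/-- Blockwise maps on pairs of families. -/
def bw {I : Type} (f : I → ℝ × (ℕ → ℝ) → ℝ × (ℕ → ℝ)) (p : (I → ℝ) × (I → ℕ → ℝ)) :
    (I → ℝ) × (I → ℕ → ℝ) :=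
  (fun i => (f i (p.1 i, p.2 i)).1, fun i => (f i (p.1 i, p.2 i)).2)

lemma continuousOn_bw {I : Type} {f : I → ℝ × (ℕ → ℝ) → ℝ × (ℕ → ℝ)}
    {S : Set ℝ} (hf : ∀ i, ContinuousOn (f i) {p | p.1 ∈ S})
    {A : Set ((I → ℝ) × (I → ℕ → ℝ))} (hA : ∀ p ∈ A, ∀ i, p.1 i ∈ S) :
    ContinuousOn (bw f) A := by
  have h : ∀ i, ContinuousOn (fun p : (I → ℝ) × (I → ℕ → ℝ) => f i (p.1 i, p.2 i)) A := by
    intro i
    refine (hf i).comp (Continuous.continuousOn (by fun_prop)) ?_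
    intro p hp
    exact hA p hp i
  refine ContinuousOn.prodMk (continuousOn_pi.2 fun i => ?_) (continuousOn_pi.2 fun i => ?_)
  · exact continuous_fst.comp_continuousOn (h i)
  · exact continuous_snd.comp_continuousOn (h i)

lemma tendsto_half_encode {I : Type} [Encodable I] {c : Filter I} (hc : c ≤ cofinite) :
    Tendsto (fun i : I => 2 * (1 / 2 : ℝ) ^ (Encodable.encode i)) c (𝓝 0) := by
  have h1 : Tendsto (Encodable.encode : I → ℕ) c atTop := by
    rw [← Nat.cofinite_eq_atTop]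
    exact (Encodable.encode_injective.tendsto_cofinite).mono_left hc
  have h2 : Tendsto (fun n : ℕ => 2 * (1 / 2 : ℝ) ^ n) atTop (𝓝 (2 * 0)) :=
    (tendsto_pow_atTop_nhds_zero_of_lt_one (by norm_num) (by norm_num)).const_mul 2
  rw [mul_zero] at h2
  exact h2.comp h1

lemma eventually_lt_encode {I : Type} [Encodable I] {c : Filter I} (hc : c ≤ cofinite) (k : ℕ) :
    ∀ᶠ i in c, k < Encodable.encode i := by
  have h1 : Tendsto (Encodable.encode : I → ℕ) c atTop := by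
    rw [← Nat.cofinite_eq_atTop]
    exact (Encodable.encode_injective.tendsto_cofinite).mono_left hc
  exact h1.eventually (eventually_gt_atTop k)

theorem he_EP_E0 {I : Type} [Encodable I] (F : Set (Filter I)) (hF : ∀ c ∈ F, c ≤ cofinite) :
    He (EP F ×ˢ EW F) (E0 F ×ˢ EW F) := by
  refine ⟨bw fun i => Sf (Encodable.encode i), bw fun i => Sb (Encodable.encode i), ?_, ?_, ?_, ?_,
    ?_, ?_⟩
  · refine continuousOn_bw (S := Ioi 0) (fun i => continuousOn_Sf _) ?_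
    rintro ⟨h, x⟩ ⟨hh, -⟩ i
    exact hh.1 i
  · refine continuousOn_bw (S := Ici 0) (fun i => continuousOn_Sb _) ?_
    rintro ⟨h, x⟩ ⟨hh, -⟩ i
    exact hh.1 i
  · rintro ⟨h, x⟩ ⟨hh, hx⟩
    refine ⟨⟨fun i => Sf_fst_nonneg (hh.1 i), fun c hc => ?_⟩, fun c hc k => ?_⟩
    · refine squeeze_zero (fun i => Sf_fst_nonneg (hh.1 i)) (fun i => ?_) (hh.2 c hc)
      exact Sf_fst_le _ _
    · refine (hx c hc k).congr' ?_
      filter_upwards [eventually_lt_encode (hF c hc) k] with i hi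
      exact (Sf_snd (h i, x i) hi).symm
  · rintro ⟨h, x⟩ ⟨hh, hx⟩
    refine ⟨⟨fun i => Sb_fst_pos (hh.1 i), fun c hc => ?_⟩, fun c hc k => ?_⟩
    · refine squeeze_zero (fun i => (Sb_fst_pos (p := (h i, x i)) (hh.1 i)).le) (fun i => ?_)
        (show Tendsto (fun i => h i + 2 * (1 / 2 : ℝ) ^ (Encodable.encode i)) c (𝓝 0) by
          simpa using (hh.2 c hc).add (tendsto_half_encode (hF c hc)))
      exact Sb_fst_le (hh.1 i)
    · refine (hx c hc k).congr' ?_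
      filter_upwards [eventually_lt_encode (hF c hc) k] with i hi
      exact (Sb_snd (h i, x i) hi).symm
  · rintro ⟨h, x⟩ ⟨hh, hx⟩
    have : ∀ i, Sb (Encodable.encode i) (Sf (Encodable.encode i) (h i, x i)) = (h i, x i) :=
      fun i => Sb_Sf (hh.1 i)
    refine Prod.ext (funext fun i => ?_) (funext fun i => ?_)
    · exact congrArg Prod.fst (this i)
    · exact congrArg Prod.snd (this i)
  · rintro ⟨h, x⟩ ⟨hh, hx⟩
    have : ∀ i, Sf (Encodable.encode i) (Sb (Encodable.encode i) (h i, x i)) = (h i, x i) :=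
      fun i => Sf_Sb (hh.1 i)
    refine Prod.ext (funext fun i => ?_) (funext fun i => ?_)
    · exact congrArg Prod.fst (this i)
    · exact congrArg Prod.snd (this i)

/-! ### the closed half line -/

/-- The base point. -/
def s0 : ℝ × (ℕ → ℝ) := Sb 0 (0, 0)

lemma s0_pos : 0 < s0.1 := Sb_fst_pos (p := (0, 0)) le_rfl

/-- Closed half space onto the whole space. -/
def H0 (q : ℝ × (ℕ → ℝ)) : ℕ → ℝ
  | 0 => Real.log (Sb 0 q).1 - Real.log s0.1
  | k + 1 => (Sb 0 q).2 k - s0.2 k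

/-- The inverse. -/
def H1 (y : ℕ → ℝ) : ℝ × (ℕ → ℝ) :=
  Sf 0 (Real.exp (y 0 + Real.log s0.1), fun k => y (k + 1) + s0.2 k)

lemma H0_zero : H0 (0, 0) = 0 := by
  funext k
  cases k with
  | zero => show Real.log s0.1 - Real.log s0.1 = 0; ring
  | succ k => show s0.2 k - s0.2 k = 0; ring

lemma H1_zero : H1 0 = (0, 0) := by
  unfold H1
  have : (Real.exp ((0 : ℕ → ℝ) 0 + Real.log s0.1), fun k => (0 : ℕ → ℝ) (k + 1) + s0.2 k) = s0 := by
    refine Prod.ext ?_ ?_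
    · simp [Real.exp_log s0_pos]
    · funext k; simp
  rw [this]
  exact Sf_Sb (p := (0, 0)) le_rfl

lemma continuousOn_H0 : ContinuousOn H0 {p | 0 ≤ p.1} := by
  refine continuousOn_pi.2 fun k => ?_
  cases k with
  | zero =>
    show ContinuousOn (fun q => Real.log (Sb 0 q).1 - Real.log s0.1) _
    refine ContinuousOn.sub ?_ continuousOn_const
    refine ContinuousOn.log (continuous_fst.comp_continuousOn (continuousOn_Sb 0)) ?_
    intro p hp
    exact (Sb_fst_pos hp).ne'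
  | succ k =>
    show ContinuousOn (fun q => (Sb 0 q).2 k - s0.2 k) _
    refine ContinuousOn.sub ?_ continuousOn_const
    exact ((continuous_apply k).comp continuous_snd).comp_continuousOn (continuousOn_Sb 0)

lemma continuous_H1 : Continuous H1 := by
  unfold H1
  refine (continuousOn_Sf 0).comp_continuous (by fun_prop) ?_
  intro y
  exact Real.exp_pos _

lemma H1_H0 {q : ℝ × (ℕ → ℝ)} (hq : 0 ≤ q.1) : H1 (H0 q) = q := by
  unfold H1
  have : (Real.exp (H0 q 0 + Real.log s0.1), fun k => H0 q (k + 1) + s0.2 k) = Sb 0 q := by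
    refine Prod.ext ?_ ?_
    · show Real.exp (Real.log (Sb 0 q).1 - Real.log s0.1 + Real.log s0.1) = _
      rw [sub_add_cancel, Real.exp_log (Sb_fst_pos hq)]
    · funext k
      show (Sb 0 q).2 k - s0.2 k + s0.2 k = _
      ring
  rw [this, Sf_Sb hq]

lemma H1_nonneg (y : ℕ → ℝ) : 0 ≤ (H1 y).1 := Sf_fst_nonneg (Real.exp_pos _)

lemma H0_H1 (y : ℕ → ℝ) : H0 (H1 y) = y := by
  have h : Sb 0 (H1 y) = (Real.exp (y 0 + Real.log s0.1), fun k => y (k + 1) + s0.2 k) :=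
    Sb_Sf (Real.exp_pos _)
  funext k
  cases k with
  | zero =>
    show Real.log (Sb 0 (H1 y)).1 - Real.log s0.1 = y 0
    rw [h]
    simp
  | succ k =>
    show (Sb 0 (H1 y)).2 k - s0.2 k = y (k + 1)
    rw [h]
    simp

theorem he_E0 {I : Type} (F : Set (Filter I)) : He (E0 F ×ˢ EW F) (EW F) := by
  refine ⟨fun p i => H0 (p.1 i, p.2 i), fun y => (fun i => (H1 (y i)).1, fun i => (H1 (y i)).2),
    ?_, ?_, ?_, ?_, ?_, ?_⟩
  · refine continuousOn_pi.2 fun i => continuousOn_H0.comp (Continuous.continuousOn (by fun_prop)) ?_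
    rintro ⟨h, x⟩ ⟨hh, -⟩
    exact hh.1 i
  · have h : ∀ i : I, Continuous fun y : I → ℕ → ℝ => H1 (y i) := fun i =>
      continuous_H1.comp (continuous_apply i)
    exact (Continuous.prodMk (continuous_pi fun i => continuous_fst.comp (h i))
      (continuous_pi fun i => continuous_snd.comp (h i))).continuousOn
  · rintro ⟨h, x⟩ ⟨hh, hx⟩ c hc k
    have h1 : Tendsto (fun i => ((h i, x i) : ℝ × (ℕ → ℝ))) c (𝓝[{p | 0 ≤ p.1}] (0, 0)) := by
      rw [tendsto_nhdsWithin_iff]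
      refine ⟨?_, Eventually.of_forall fun i => hh.1 i⟩
      refine (hh.2 c hc).prodMk_nhds (tendsto_pi_nhds.2 fun k => hx c hc k)
    have h2 := (continuousOn_H0 (0, 0) (show (0 : ℝ) ≤ 0 from le_rfl)).tendsto.comp h1
    rw [H0_zero] at h2
    exact (tendsto_pi_nhds.1 h2) k
  · intro y hy
    have key : ∀ c ∈ F, Tendsto (fun i => H1 (y i)) c (𝓝 (0, 0)) := by
      intro c hc
      have h1 : Tendsto y c (𝓝 0) := tendsto_pi_nhds.2 fun k => hy c hc k
      have h2 := (continuous_H1.tendsto 0).comp h1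
      rwa [H1_zero] at h2
    refine ⟨⟨fun i => H1_nonneg _, fun c hc => ?_⟩, fun c hc k => ?_⟩
    · exact (continuous_fst.tendsto _).comp (key c hc)
    · exact (((continuous_apply k).comp continuous_snd).tendsto _).comp (key c hc)
  · rintro ⟨h, x⟩ ⟨hh, hx⟩
    have : ∀ i, H1 (H0 (h i, x i)) = (h i, x i) := fun i => H1_H0 (hh.1 i)
    refine Prod.ext (funext fun i => ?_) (funext fun i => ?_)
    · exact congrArg Prod.fst (this i)
    · exact congrArg Prod.snd (this i)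
  · intro y hy
    funext i
    exact H0_H1 (y i)

/-- Absorption of positive functions. -/
theorem posAbs {I : Type} [Encodable I] (F : Set (Filter I)) (hF : ∀ c ∈ F, c ≤ cofinite) :
    He (EP F ×ˢ EW F) (EW F) :=
  (he_EP_E0 F hF).trans (he_E0 F)

/-- Absorption of nonnegative functions tending to infinity. -/
theorem he_AT (Y : Set (ℕ → Bool)) :
    He (EP (FT Y) ×ˢ EW (FT Y)) (AT Y ×ˢ EW (FT Y)) := by
  refine ⟨fun p => bw (fun _ => Sf 0) (fun i => (p.1 i)⁻¹, p.2),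
    fun p => ((fun i => ((bw (fun _ => Sb 0) p).1 i)⁻¹), (bw (fun _ => Sb 0) p).2), ?_, ?_, ?_, ?_,
    ?_, ?_⟩
  · refine (continuousOn_bw (f := fun _ : ℕ => Sf 0) (S := Ioi 0)
      (A := {p : (ℕ → ℝ) × (ℕ → ℕ → ℝ) | ∀ i, 0 < p.1 i}) (fun i => continuousOn_Sf _)
      (fun p hp i => hp i)).comp (t := {p : (ℕ → ℝ) × (ℕ → ℕ → ℝ) | ∀ i, 0 < p.1 i}) ?_ ?_
    · refine ContinuousOn.prodMk (continuousOn_pi.2 fun i => ?_) continuousOn_snd
      refine ContinuousOn.inv₀ (Continuous.continuousOn (by fun_prop)) ?_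
      rintro ⟨h, x⟩ ⟨hh, -⟩
      exact (hh.1 i).ne'
    · rintro ⟨h, x⟩ ⟨hh, -⟩ i
      exact inv_pos.2 (hh.1 i)
  · have h := continuousOn_bw (f := fun _ : ℕ => Sb 0) (S := Ici 0)
      (A := AT Y ×ˢ EW (FT Y)) (fun i => continuousOn_Sb _) (fun p hp i => hp.1.1 i)
    refine ContinuousOn.prodMk (continuousOn_pi.2 fun i => ?_)
      (continuous_snd.comp_continuousOn h)
    refine ContinuousOn.inv₀ (((continuous_apply i).comp continuous_fst).comp_continuousOn h) ?_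
    rintro ⟨a, x⟩ ⟨ha, -⟩
    exact (Sb_fst_pos (p := (a i, x i)) (ha.1 i)).ne'
  · rintro ⟨h, x⟩ ⟨hh, hx⟩
    have hpos : ∀ i, 0 < (h i)⁻¹ := fun i => inv_pos.2 (hh.1 i)
    have hlim : ∀ y ∈ Y, Tendsto (fun i => (Sf 0 ((h i)⁻¹, x i)).1) (Fy y) atTop := by
      intro y hy
      have h1 : Tendsto (fun i => (h i)⁻¹) (Fy y) atTop := by
        refine Tendsto.inv_tendsto_nhdsGT_zero ?_
        rw [tendsto_nhdsWithin_iff]
        exact ⟨hh.2 _ ⟨y, hy, rfl⟩, Eventually.of_forall fun i => hh.1 i⟩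
      refine tendsto_atTop_mono (fun i => ?_) (tendsto_atTop_add_const_right (Fy y) (-2) h1)
      have := le_Sf_fst 0 ((h i)⁻¹, x i)
      simp only [pow_zero, mul_one] at this
      show (h i)⁻¹ + -2 ≤ _
      have e : ((h i)⁻¹, x i).1 = (h i)⁻¹ := rfl
      linarith
    refine ⟨⟨fun i => Sf_fst_nonneg (hpos i), hlim⟩, ?_⟩
    rintro c ⟨y, hy, rfl⟩ k
    refine (hx _ ⟨y, hy, rfl⟩ k).congr' ?_
    filter_upwards [(hlim y hy).eventually (eventually_ge_atTop 1)] with i hi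
    show x i k = (Sf 0 ((h i)⁻¹, x i)).2 k
    rw [Sf_far hi]
  · rintro ⟨a, x⟩ ⟨ha, hx⟩
    have hlim : ∀ y ∈ Y, Tendsto (fun i => (Sb 0 (a i, x i)).1) (Fy y) atTop := by
      intro y hy
      exact tendsto_atTop_mono (fun i => le_Sb_fst (p := (a i, x i)) (ha.1 i)) (ha.2 y hy)
    refine ⟨⟨fun i => inv_pos.2 (Sb_fst_pos (p := (a i, x i)) (ha.1 i)), ?_⟩, ?_⟩
    · rintro c ⟨y, hy, rfl⟩
      exact (hlim y hy).inv_tendsto_atTop
    · rintro c ⟨y, hy, rfl⟩ k
      refine (hx _ ⟨y, hy, rfl⟩ k).congr' ?_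
      filter_upwards [(ha.2 y hy).eventually (eventually_ge_atTop 1)] with i hi
      have h1 : (Sf 0 (Sb 0 (a i, x i))).2 = (Sb 0 (a i, x i)).2 := by
        refine Sf_far ?_
        rw [Sf_Sb (p := (a i, x i)) (ha.1 i)]
        exact hi
      rw [Sf_Sb (p := (a i, x i)) (ha.1 i)] at h1
      show x i k = (Sb 0 (a i, x i)).2 k
      rw [← h1]
  · rintro ⟨h, x⟩ ⟨hh, hx⟩
    have : ∀ i, Sb 0 (Sf 0 ((h i)⁻¹, x i)) = ((h i)⁻¹, x i) := fun i => Sb_Sf (inv_pos.2 (hh.1 i))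
    refine Prod.ext (funext fun i => ?_) (funext fun i => ?_)
    · show ((Sb 0 (Sf 0 ((h i)⁻¹, x i))).1)⁻¹ = h i
      rw [this i]; simp
    · exact congrArg Prod.snd (this i)
  · rintro ⟨a, x⟩ ⟨ha, hx⟩
    have : ∀ i, Sf 0 (Sb 0 (a i, x i)) = (a i, x i) := fun i => Sf_Sb (ha.1 i)
    refine Prod.ext (funext fun i => ?_) (funext fun i => ?_)
    · show (Sf 0 ((((Sb 0 (a i, x i)).1)⁻¹)⁻¹, (Sb 0 (a i, x i)).2)).1 = a i
      rw [inv_inv]
      exact congrArg Prod.fst (this i)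
    · show (Sf 0 ((((Sb 0 (a i, x i)).1)⁻¹)⁻¹, (Sb 0 (a i, x i)).2)).2 = x i
      rw [inv_inv]
      exact congrArg Prod.snd (this i)

end

end Pool.Agent.H568.NC
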