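import Pool.Agent.H568.NC.Defs

/-!
# NC-2 (job 2019, written by helper857): absorbing strictly decreasing null sequences
-/

set_option autoImplicit false
namespace Pool.Agent.H568.NC
open Set Filter Topology
noncomputable section

namespace QD

/-- the homeomorphism of the line onto `(0,1)` -/
def sg (z : ℝ) : ℝ := (1 + z / (1 + |z|)) / 2

/-- its inverse -/
def gs (v : ℝ) : ℝ := (2 * v - 1) / (1 - |2 * v - 1|)

lemma den_pos (z : ℝ) : 0 < 1 + |z| := by positivity

lemma abs_div_lt (z : ℝ) : |z / (1 + |z|)| < 1 := by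
  rw [abs_div, abs_of_pos (den_pos z), div_lt_one (den_pos z)]
  linarith

lemma sg_pos (z : ℝ) : 0 < sg z := by
  have h := (abs_lt.1 (abs_div_lt z)).1
  unfold sg
  linarith

lemma sg_lt_one (z : ℝ) : sg z < 1 := by
  have h := (abs_lt.1 (abs_div_lt z)).2
  unfold sg
  linarith

lemma continuous_sg : Continuous sg := by
  unfold sg
  refine Continuous.div_const (continuous_const.add ?_) _
  refine continuous_id.div (continuous_const.add continuous_abs) ?_
  intro z
  exact (den_pos z).ne'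

lemma gs_sg (z : ℝ) : gs (sg z) = z := by
  have h0 := den_pos z
  have e : 2 * sg z - 1 = z / (1 + |z|) := by unfold sg; ring
  unfold gs
  rw [e, abs_div, abs_of_pos h0]
  have e2 : 1 - |z| / (1 + |z|) = 1 / (1 + |z|) := by field_simp; ring
  rw [e2]
  field_simp

lemma abs_lt_one_of {v : ℝ} (h0 : 0 < v) (h1 : v < 1) : |2 * v - 1| < 1 := by
  rw [abs_lt]
  constructor <;> linarith

lemma sg_gs {v : ℝ} (h0 : 0 < v) (h1 : v < 1) : sg (gs v) = v := by
  have h := abs_lt_one_of h0 h1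
  have hp : 0 < 1 - |2 * v - 1| := by linarith
  have e : 1 + |gs v| = 1 / (1 - |2 * v - 1|) := by
    unfold gs
    rw [abs_div, abs_of_pos hp]
    field_simp
    ring
  unfold sg
  rw [e]
  unfold gs
  field_simp
  ring

/-- the recursion -/
def R (p : (ℕ × ℕ → ℝ) × (ℕ × ℕ → ℝ)) (s : ℕ) : ℕ → ℝ
  | 0 => p.2 (s, 0) * sg (p.1 (s, 0))
  | n + 1 => min (R p s n) (p.2 (s, n + 1)) * sg (p.1 (s, n + 1))

/-- the upper bound -/
def ub (p : (ℕ → ℕ → ℝ) × (ℕ × ℕ → ℝ)) (s : ℕ) : ℕ → ℝ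
  | 0 => p.1 s 0 + p.2 (s, 0)
  | n + 1 => min (p.1 s n) (p.1 s (n + 1) + p.2 (s, n + 1))

/-- forward map -/
def fw (p : (ℕ → ℕ → ℝ) × (ℕ × ℕ → ℝ)) : (ℕ × ℕ → ℝ) × (ℕ × ℕ → ℝ) :=
  (fun q => gs (p.1 q.1 q.2 / ub p q.1 q.2), fun q => p.1 q.1 q.2 + p.2 q)

/-- backward map -/
def bw (p : (ℕ × ℕ → ℝ) × (ℕ × ℕ → ℝ)) : (ℕ → ℕ → ℝ) × (ℕ × ℕ → ℝ) :=
  (fun s n => R p s n, fun q => p.2 q - R p q.1 q.2)

lemma mem_EP_FQ {h : ℕ × ℕ → ℝ} : h ∈ EP FQ ↔
    (∀ q, 0 < h q) ∧ ∀ s, Tendsto (fun n => h (s, n)) atTop (𝓝 0) := by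
  unfold EP FQ
  constructor
  · rintro ⟨h1, h2⟩
    exact ⟨h1, fun s => tendsto_map'_iff.1 (h2 _ ⟨s, rfl⟩)⟩
  · rintro ⟨h1, h2⟩
    refine ⟨h1, ?_⟩
    rintro _ ⟨s, rfl⟩
    exact tendsto_map'_iff.2 (h2 s)

lemma ub_bounds {p : (ℕ → ℕ → ℝ) × (ℕ × ℕ → ℝ)} (hp : p ∈ DdF ×ˢ EP FQ) (s n : ℕ) :
    0 < p.1 s n ∧ p.1 s n < ub p s n := by
  obtain ⟨h1, h2⟩ := hp
  have h3 := h1 s
  have h4 := (mem_EP_FQ.1 h2).1
  refine ⟨h3.1 n, ?_⟩
  cases n with
  | zero =>
    have := h4 (s, 0)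
    show p.1 s 0 < p.1 s 0 + p.2 (s, 0)
    linarith
  | succ n =>
    have := h4 (s, n + 1)
    show p.1 s (n + 1) < min (p.1 s n) (p.1 s (n + 1) + p.2 (s, n + 1))
    exact lt_min (h3.2.1 n) (by linarith)

lemma R_bounds {p : (ℕ × ℕ → ℝ) × (ℕ × ℕ → ℝ)} (hp : ∀ q, 0 < p.2 q) (s n : ℕ) :
    0 < R p s n ∧ R p s n < p.2 (s, n) ∧ R p s (n + 1) < R p s n := by
  have key : ∀ n, 0 < R p s n := by
    intro n
    induction n with
    | zero => exact mul_pos (hp _) (sg_pos _)
    | succ n ih => exact mul_pos (lt_min ih (hp _)) (sg_pos _)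
  have lt1 : ∀ u z : ℝ, 0 < u → u * sg z < u := fun u z hu => by
    have := sg_lt_one z
    nlinarith
  refine ⟨key n, ?_, ?_⟩
  · cases n with
    | zero => exact lt1 _ _ (hp _)
    | succ n => exact (lt1 _ _ (lt_min (key n) (hp _))).trans_le (min_le_right _ _)
  · exact (lt1 _ _ (lt_min (key n) (hp _))).trans_le (min_le_left _ _)

lemma continuous_R (s n : ℕ) : Continuous fun p => R p s n := by
  induction n with
  | zero =>
    show Continuous fun p : (ℕ × ℕ → ℝ) × (ℕ × ℕ → ℝ) => p.2 (s, 0) * sg (p.1 (s, 0))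
    exact ((continuous_apply _).comp continuous_snd).mul
      (continuous_sg.comp ((continuous_apply _).comp continuous_fst))
  | succ n ih =>
    show Continuous fun p : (ℕ × ℕ → ℝ) × (ℕ × ℕ → ℝ) =>
      min (R p s n) (p.2 (s, n + 1)) * sg (p.1 (s, n + 1))
    exact (ih.min ((continuous_apply _).comp continuous_snd)).mul
      (continuous_sg.comp ((continuous_apply _).comp continuous_fst))

lemma continuous_ub (s n : ℕ) : Continuous fun p => ub p s n := by
  have h1 : ∀ s n, Continuous fun p : (ℕ → ℕ → ℝ) × (ℕ × ℕ → ℝ) => p.1 s n := fun s n =>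
    (continuous_apply n).comp ((continuous_apply s).comp continuous_fst)
  have h2 : ∀ q, Continuous fun p : (ℕ → ℕ → ℝ) × (ℕ × ℕ → ℝ) => p.2 q := fun q =>
    (continuous_apply q).comp continuous_snd
  cases n with
  | zero => exact (h1 s 0).add (h2 _)
  | succ n => exact (h1 s n).min ((h1 s (n + 1)).add (h2 _))

lemma R_fw {p : (ℕ → ℕ → ℝ) × (ℕ × ℕ → ℝ)} (hp : p ∈ DdF ×ˢ EP FQ) (s n : ℕ) :
    R (fw p) s n = p.1 s n := by
  have key : ∀ n, ub p s n * sg (gs (p.1 s n / ub p s n)) = p.1 s n := by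
    intro n
    obtain ⟨h1, h2⟩ := ub_bounds hp s n
    have h3 : 0 < ub p s n := h1.trans h2
    rw [sg_gs (div_pos h1 h3) ((div_lt_one h3).2 h2)]
    field_simp
  induction n with
  | zero => exact key 0
  | succ n ih =>
    show min (R (fw p) s n) ((fw p).2 (s, n + 1)) * sg ((fw p).1 (s, n + 1)) = _
    rw [ih]
    exact key (n + 1)

end QD

open QD in
theorem he_DdF : He (DdF ×ˢ EP FQ) ((univ : Set (ℕ × ℕ → ℝ)) ×ˢ EP FQ) := by
  refine ⟨fw, bw, ?_, ?_, ?_, ?_, ?_, ?_⟩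
  · refine ContinuousOn.prodMk ?_ ?_
    · refine continuousOn_pi.2 fun q => ?_
      have h1 : Continuous fun p : (ℕ → ℕ → ℝ) × (ℕ × ℕ → ℝ) => p.1 q.1 q.2 :=
        (continuous_apply q.2).comp ((continuous_apply q.1).comp continuous_fst)
      have h2 : ContinuousOn (fun p : (ℕ → ℕ → ℝ) × (ℕ × ℕ → ℝ) => p.1 q.1 q.2 / ub p q.1 q.2)
          (DdF ×ˢ EP FQ) := by
        refine h1.continuousOn.div (continuous_ub q.1 q.2).continuousOn ?_
        intro p hp
        obtain ⟨h3, h4⟩ := ub_bounds hp q.1 q.2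
        exact (h3.trans h4).ne'
      have h5 : ContinuousOn (fun p : (ℕ → ℕ → ℝ) × (ℕ × ℕ → ℝ) =>
          2 * (p.1 q.1 q.2 / ub p q.1 q.2) - 1) (DdF ×ˢ EP FQ) :=
        (continuousOn_const.mul h2).sub continuousOn_const
      refine h5.div (continuousOn_const.sub h5.abs) ?_
      intro p hp
      obtain ⟨h3, h4⟩ := ub_bounds hp q.1 q.2
      have h6 := abs_lt_one_of (div_pos h3 (h3.trans h4)) ((div_lt_one (h3.trans h4)).2 h4)
      linarith
    · refine continuousOn_pi.2 fun q => ?_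
      have h1 : Continuous fun p : (ℕ → ℕ → ℝ) × (ℕ × ℕ → ℝ) => p.1 q.1 q.2 :=
        (continuous_apply q.2).comp ((continuous_apply q.1).comp continuous_fst)
      exact (h1.add ((continuous_apply q).comp continuous_snd)).continuousOn
  · have h : Continuous bw := by
      refine Continuous.prodMk ?_ ?_
      · exact continuous_pi fun s => continuous_pi fun n => continuous_R s n
      · exact continuous_pi fun q =>
          ((continuous_apply q).comp continuous_snd).sub (continuous_R q.1 q.2)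
    exact h.continuousOn
  · intro p hp
    refine ⟨mem_univ _, mem_EP_FQ.2 ⟨?_, ?_⟩⟩
    · intro q
      exact add_pos (hp.1 q.1 |>.1 q.2) ((mem_EP_FQ.1 hp.2).1 q)
    · intro s
      have h1 := (hp.1 s).2.2
      have h2 := (mem_EP_FQ.1 hp.2).2 s
      have h3 := h1.add h2
      rw [add_zero] at h3
      exact h3
  · intro p hp
    have hp2 := mem_EP_FQ.1 hp.2
    have hR := fun s n => R_bounds hp2.1 s n
    have hlim : ∀ s, Tendsto (fun n => R p s n) atTop (𝓝 0) := fun s =>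
      squeeze_zero (fun n => (hR s n).1.le) (fun n => (hR s n).2.1.le) (hp2.2 s)
    refine ⟨fun s => ⟨fun n => (hR s n).1, fun n => (hR s n).2.2, hlim s⟩,
      mem_EP_FQ.2 ⟨?_, ?_⟩⟩
    · intro q
      exact sub_pos.2 (hR q.1 q.2).2.1
    · intro s
      have h3 := (hp2.2 s).sub (hlim s)
      rw [sub_zero] at h3
      exact h3
  · intro p hp
    refine Prod.ext ?_ ?_
    · funext s n
      exact R_fw hp s n
    · funext q
      show p.1 q.1 q.2 + p.2 q - R (fw p) q.1 q.2 = p.2 q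
      rw [R_fw hp]
      ring
  · intro p hp
    have hp2 := mem_EP_FQ.1 hp.2
    have hR := fun s n => R_bounds hp2.1 s n
    refine Prod.ext ?_ ?_
    · funext q
      obtain ⟨s, n⟩ := q
      show gs (R p s n / ub (bw p) s n) = p.1 (s, n)
      cases n with
      | zero =>
        have e : ub (bw p) s 0 = p.2 (s, 0) := by
          show R p s 0 + (p.2 (s, 0) - R p s 0) = _
          ring
        have h0 := hp2.1 (s, 0)
        rw [e]
        show gs (p.2 (s, 0) * sg (p.1 (s, 0)) / p.2 (s, 0)) = _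
        rw [mul_div_cancel_left₀ _ h0.ne', gs_sg]
      | succ n =>
        have e : ub (bw p) s (n + 1) = min (R p s n) (p.2 (s, n + 1)) := by
          show min (R p s n) (R p s (n + 1) + (p.2 (s, n + 1) - R p s (n + 1))) = _
          congr 1
          ring
        have h0 : 0 < min (R p s n) (p.2 (s, n + 1)) := lt_min (hR s n).1 (hp2.1 _)
        rw [e]
        show gs (min (R p s n) (p.2 (s, n + 1)) * sg (p.1 (s, n + 1)) /
          min (R p s n) (p.2 (s, n + 1))) = _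
        rw [mul_div_cancel_left₀ _ h0.ne', gs_sg]
    · funext q
      show R p q.1 q.2 + (p.2 q - R p q.1 q.2) = p.2 q
      ring

end
end Pool.Agent.H568.NC
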