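import Pool.Agent.H568.NC.CMD
import Pool.Agent.H568.NC.Pos
import Pool.Agent.H568.NC.QD
import Pool.Agent.H568.NC.FSp
import Pool.Agent.H568.NC.MSp
import Pool.Agent.H568.NC.NonAn

/-!
Assembly.
-/

set_option autoImplicit false

namespace Pool.Agent.H568.NC

open Set Filter Topology

noncomputable section

section Absorb

variable {α β γ : Type} [TopologicalSpace α] [TopologicalSpace β] [TopologicalSpace γ]
  {A : Set α} {B : Set β} {C : Set γ}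

lemma He.absorb_left (h : He (A ×ˢ B) B) : He (A ×ˢ (B ×ˢ C)) (B ×ˢ C) :=
  (He.assoc A B C).symm.trans (h.prod (He.refl C))

lemma He.absorb_right (h : He (A ×ˢ C) C) : He (A ×ˢ (B ×ˢ C)) (B ×ˢ C) :=
  ((He.assoc A B C).symm.trans ((He.swap A B).prod (He.refl C))).trans
    ((He.assoc B A C).trans ((He.refl B).prod h))

end Absorb

/-- The space of real sequences. -/
abbrev RR : Set (ℕ → ℝ) := univ

lemma he_comap {I J : Type} (e : I ≃ J) :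
    He (univ : Set (I → ℝ)) (univ : Set (J → ℝ)) :=
  ⟨fun f j => f (e.symm j), fun f i => f (e i), by fun_prop, by fun_prop, fun _ _ => mem_univ _,
    fun _ _ => mem_univ _, fun f _ => funext fun i => by simp, fun f _ => funext fun j => by simp⟩

lemma he_sum {I J : Type} :
    He ((univ : Set (I → ℝ)) ×ˢ (univ : Set (J → ℝ))) (univ : Set (I ⊕ J → ℝ)) := by
  refine ⟨fun p => Sum.elim p.1 p.2, fun f => (fun i => f (Sum.inl i), fun j => f (Sum.inr j)),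
    ?_, by fun_prop, fun _ _ => mem_univ _, fun _ _ => ⟨mem_univ _, mem_univ _⟩, ?_, ?_⟩
  · refine Continuous.continuousOn (continuous_pi fun k => ?_)
    cases k with
    | inl i => exact (continuous_apply i).comp continuous_fst
    | inr j => exact (continuous_apply j).comp continuous_snd
  · intro p _; rfl
  · intro f _
    funext k
    cases k <;> rfl

lemma he_RR {I : Type} [Denumerable I] : He ((univ : Set (I → ℝ)) ×ˢ RR) RR :=
  he_sum.trans (he_comap (Denumerable.eqv (I ⊕ ℕ)))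

/-- The target space. -/
abbrev Om (Y : Set (ℕ → Bool)) :
    Set ((ℕ → ℝ) × ((ℕ → ℕ → ℝ) × ((ℕ × ℕ → ℕ → ℝ) × (ℕ × ℕ → ℕ → ℝ)))) :=
  RR ×ˢ (EW (FT Y) ×ˢ (EW (FP Y) ×ˢ EW FQ))

variable (Y : Set (ℕ → Bool))

lemma abs_R : He (RR ×ˢ Om Y) (Om Y) := He.absorb_left he_RR

lemma abs_R2 : He ((univ : Set (ℕ × ℕ → ℝ)) ×ˢ Om Y) (Om Y) := He.absorb_left he_RR

lemma abs_AT : He (AT Y ×ˢ Om Y) (Om Y) := by
  refine He.absorb_right (He.absorb_left ?_)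
  exact (he_AT Y).symm.trans (posAbs (FT Y) FT_le)

lemma abs_P : He (EP (FP Y) ×ˢ Om Y) (Om Y) := by
  refine He.absorb_right (He.absorb_right (He.absorb_left ?_))
  exact posAbs (FP Y) FP_le

lemma abs_Q : He (EP FQ ×ˢ Om Y) (Om Y) := by
  refine He.absorb_right (He.absorb_right (He.absorb_right ?_))
  exact posAbs FQ FQ_le

lemma abs_D : He (DdF ×ˢ Om Y) (Om Y) := by
  have h1 : He (DdF ×ˢ Om Y) (DdF ×ˢ (EP FQ ×ˢ Om Y)) := (He.refl _).prod (abs_Q Y).symm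
  have h2 : He (DdF ×ˢ (EP FQ ×ˢ Om Y)) ((DdF ×ˢ EP FQ) ×ˢ Om Y) := (He.assoc _ _ _).symm
  have h3 : He ((DdF ×ˢ EP FQ) ×ˢ Om Y) (((univ : Set (ℕ × ℕ → ℝ)) ×ˢ EP FQ) ×ˢ Om Y) :=
    he_DdF.prod (He.refl _)
  have h4 : He (((univ : Set (ℕ × ℕ → ℝ)) ×ˢ EP FQ) ×ˢ Om Y)
      ((univ : Set (ℕ × ℕ → ℝ)) ×ˢ (EP FQ ×ˢ Om Y)) := He.assoc _ _ _
  have h5 : He ((univ : Set (ℕ × ℕ → ℝ)) ×ˢ (EP FQ ×ˢ Om Y)) ((univ : Set (ℕ × ℕ → ℝ)) ×ˢ Om Y) :=
    (He.refl _).prod (abs_Q Y)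
  exact h1.trans (h2.trans (h3.trans (h4.trans (h5.trans (abs_R2 Y)))))

lemma abs_all : He ((RR ×ˢ (AT Y ×ˢ DdF)) ×ˢ Om Y) (Om Y) := by
  refine (He.assoc _ _ _).trans (((He.refl RR).prod ?_).trans (abs_R Y))
  exact (He.assoc _ _ _).trans (((He.refl (AT Y)).prod (abs_D Y)).trans (abs_AT Y))

/-- First direction. -/
theorem cd_one : Cd (CM Y ×ˢ Om Y) (Om Y) := by
  have h1 : Cd (CM Y ×ˢ Om Y) (CM Y ×ˢ (EP (FP Y) ×ˢ Om Y)) :=
    ((He.refl _).prod (abs_P Y).symm).cd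
  have h2 : Cd (CM Y ×ˢ (EP (FP Y) ×ˢ Om Y)) (LM Y ×ˢ (EP (FP Y) ×ˢ Om Y)) :=
    (cd_CM_LM Y).prod (Cd.refl _)
  have h3 : Cd (LM Y ×ˢ (EP (FP Y) ×ˢ Om Y)) ((LM Y ×ˢ EP (FP Y)) ×ˢ Om Y) :=
    (He.assoc _ _ _).symm.cd
  have h4 : Cd ((LM Y ×ˢ EP (FP Y)) ×ˢ Om Y) ((RR ×ˢ EP (FP Y)) ×ˢ Om Y) :=
    (cd_LM Y).prod (Cd.refl _)
  have h5 : Cd ((RR ×ˢ EP (FP Y)) ×ˢ Om Y) (RR ×ˢ (EP (FP Y) ×ˢ Om Y)) := (He.assoc _ _ _).cd
  have h6 : Cd (RR ×ˢ (EP (FP Y) ×ˢ Om Y)) (Om Y) :=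
    (((He.refl RR).prod (abs_P Y)).trans (abs_R Y)).cd
  exact h1.trans (h2.trans (h3.trans (h4.trans (h5.trans h6))))

/-- Second direction. -/
theorem cd_two : Cd (Om Y) (CM Y ×ˢ Om Y) := by
  have h1 : Cd (Om Y) ((RR ×ˢ (AT Y ×ˢ DdF)) ×ˢ Om Y) := (abs_all Y).symm.cd
  have h2 : Cd ((RR ×ˢ (AT Y ×ˢ DdF)) ×ˢ Om Y) ((CM Y ×ˢ EP (FP Y)) ×ˢ Om Y) :=
    (cd_CM Y).prod (Cd.refl _)
  have h3 : Cd ((CM Y ×ˢ EP (FP Y)) ×ˢ Om Y) (CM Y ×ˢ Om Y) :=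
    ((He.assoc _ _ _).trans ((He.refl _).prod (abs_P Y))).cd
  exact h1.trans (h2.trans h3)

/-! ### the countable space -/

/-- Index type of the isolated points. -/
abbrev JJ : Type := ℕ ⊕ ((ℕ × ℕ) ⊕ (((ℕ × ℕ) × ℕ) ⊕ ((ℕ × ℕ) × ℕ)))

/-- The embeddings of the index types. -/
def j1 (k i : ℕ) : JJ := Sum.inr (Sum.inl (i, k))
/-- second -/
def j2 (k : ℕ) (i : ℕ × ℕ) : JJ := Sum.inr (Sum.inr (Sum.inl (i, k)))
/-- third -/
def j3 (k : ℕ) (i : ℕ × ℕ) : JJ := Sum.inr (Sum.inr (Sum.inr (i, k)))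

/-- The filters. -/
def FJ : Set (Filter JJ) :=
  {c | (∃ k, ∃ d ∈ FT Y, c = map (j1 k) d) ∨ (∃ k, ∃ d ∈ FP Y, c = map (j2 k) d) ∨
    (∃ k, ∃ d ∈ FQ, c = map (j3 k) d)}

lemma j1_inj (k : ℕ) : Function.Injective (j1 k) := by
  intro a b h
  simpa [j1] using h

lemma j2_inj (k : ℕ) : Function.Injective (j2 k) := by
  intro a b h
  simpa [j2] using h

lemma j3_inj (k : ℕ) : Function.Injective (j3 k) := by
  intro a b h
  simpa [j3] using h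

lemma FJ_le : ∀ c ∈ FJ Y, c ≤ cofinite := by
  rintro c (⟨k, d, hd, rfl⟩ | ⟨k, d, hd, rfl⟩ | ⟨k, d, hd, rfl⟩)
  · exact (j1_inj k).tendsto_cofinite.mono_left (FT_le d hd)
  · exact (j2_inj k).tendsto_cofinite.mono_left (FP_le d hd)
  · exact (j3_inj k).tendsto_cofinite.mono_left (FQ_le d hd)

/-- Continuous functions on the countable space, as a set. -/
def CX : Set (Option JJ → ℝ) :=
  {f | ∀ c ∈ FJ Y, Tendsto (fun j => f (some j)) c (𝓝 (f none))}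

/-- From functions to coordinates. -/
def toO (f : Option JJ → ℝ) :
    (ℕ → ℝ) × ((ℕ → ℕ → ℝ) × ((ℕ × ℕ → ℕ → ℝ) × (ℕ × ℕ → ℕ → ℝ))) :=
  (fun n => Nat.casesOn n (f none) (fun n => f (some (Sum.inl n))),
    (fun i k => f (some (j1 k i)) - f none),
    (fun i k => f (some (j2 k i)) - f none),
    (fun i k => f (some (j3 k i)) - f none))

/-- From coordinates to functions. -/
def ofO (p : (ℕ → ℝ) × ((ℕ → ℕ → ℝ) × ((ℕ × ℕ → ℕ → ℝ) × (ℕ × ℕ → ℕ → ℝ)))) :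
    Option JJ → ℝ
  | none => p.1 0
  | some (Sum.inl n) => p.1 (n + 1)
  | some (Sum.inr (Sum.inl q)) => p.2.1 q.1 q.2 + p.1 0
  | some (Sum.inr (Sum.inr (Sum.inl q))) => p.2.2.1 q.1 q.2 + p.1 0
  | some (Sum.inr (Sum.inr (Sum.inr q))) => p.2.2.2 q.1 q.2 + p.1 0

lemma continuous_toO : Continuous toO := by
  unfold toO
  refine Continuous.prodMk (continuous_pi fun n => ?_) (Continuous.prodMk ?_
    (Continuous.prodMk ?_ ?_))
  · cases n with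
    | zero => exact continuous_apply none
    | succ n => exact continuous_apply (some (Sum.inl n))
  · fun_prop
  · fun_prop
  · fun_prop

lemma continuous_ofO : Continuous ofO := by
  refine continuous_pi fun j => ?_
  match j with
  | none => show Continuous fun p : (ℕ → ℝ) × _ => p.1 0; fun_prop
  | some (Sum.inl n) => show Continuous fun p : (ℕ → ℝ) × _ => p.1 (n + 1); fun_prop
  | some (Sum.inr (Sum.inl q)) =>
    show Continuous fun p : (ℕ → ℝ) × ((ℕ → ℕ → ℝ) × _) => p.2.1 q.1 q.2 + p.1 0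
    fun_prop
  | some (Sum.inr (Sum.inr (Sum.inl q))) =>
    show Continuous fun p : (ℕ → ℝ) × ((ℕ → ℕ → ℝ) × ((ℕ × ℕ → ℕ → ℝ) × _)) =>
      p.2.2.1 q.1 q.2 + p.1 0
    fun_prop
  | some (Sum.inr (Sum.inr (Sum.inr q))) =>
    show Continuous fun p : (ℕ → ℝ) × ((ℕ → ℕ → ℝ) × ((ℕ × ℕ → ℕ → ℝ) × (ℕ × ℕ → ℕ → ℝ))) =>
      p.2.2.2 q.1 q.2 + p.1 0
    fun_prop

lemma sub_tendsto_iff {I : Type} {c : Filter I} {f : I → ℝ} {a : ℝ} :
    Tendsto (fun i => f i - a) c (𝓝 0) ↔ Tendsto f c (𝓝 a) := by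
  constructor
  · intro h
    have := h.add_const a
    simpa using this
  · intro h
    have := h.sub_const a
    simpa using this

lemma toO_mem_iff (f : Option JJ → ℝ) : toO f ∈ Om Y ↔ f ∈ CX Y := by
  constructor
  · rintro ⟨-, h1, h2, h3⟩ c hc
    rcases hc with ⟨k, d, hd, rfl⟩ | ⟨k, d, hd, rfl⟩ | ⟨k, d, hd, rfl⟩
    · exact tendsto_map'_iff.2 (sub_tendsto_iff.1 (h1 d hd k))
    · exact tendsto_map'_iff.2 (sub_tendsto_iff.1 (h2 d hd k))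
    · exact tendsto_map'_iff.2 (sub_tendsto_iff.1 (h3 d hd k))
  · intro h
    refine ⟨mem_univ _, fun c hc k => ?_, fun c hc k => ?_, fun c hc k => ?_⟩
    · exact sub_tendsto_iff.2 (tendsto_map'_iff.1 (h _ (Or.inl ⟨k, c, hc, rfl⟩)))
    · exact sub_tendsto_iff.2 (tendsto_map'_iff.1 (h _ (Or.inr (Or.inl ⟨k, c, hc, rfl⟩))))
    · exact sub_tendsto_iff.2 (tendsto_map'_iff.1 (h _ (Or.inr (Or.inr ⟨k, c, hc, rfl⟩))))

lemma ofO_toO (f : Option JJ → ℝ) : ofO (toO f) = f := by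
  funext j
  match j with
  | none => rfl
  | some (Sum.inl n) => rfl
  | some (Sum.inr (Sum.inl q)) =>
    show f (some (j1 q.2 q.1)) - f none + f none = _
    rw [sub_add_cancel]; rfl
  | some (Sum.inr (Sum.inr (Sum.inl q))) =>
    show f (some (j2 q.2 q.1)) - f none + f none = _
    rw [sub_add_cancel]; rfl
  | some (Sum.inr (Sum.inr (Sum.inr q))) =>
    show f (some (j3 q.2 q.1)) - f none + f none = _
    rw [sub_add_cancel]; rfl

lemma toO_ofO (p : (ℕ → ℝ) × ((ℕ → ℕ → ℝ) × ((ℕ × ℕ → ℕ → ℝ) × (ℕ × ℕ → ℕ → ℝ)))) :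
    toO (ofO p) = p := by
  refine Prod.ext (funext fun n => ?_) (Prod.ext (funext fun i => funext fun k => ?_)
    (Prod.ext (funext fun i => funext fun k => ?_) (funext fun i => funext fun k => ?_)))
  · cases n <;> rfl
  · show p.2.1 i k + p.1 0 - p.1 0 = _
    ring
  · show p.2.2.1 i k + p.1 0 - p.1 0 = _
    ring
  · show p.2.2.2 i k + p.1 0 - p.1 0 = _
    ring

lemma he_CX : He (CX Y) (Om Y) := by
  refine ⟨toO, ofO, continuous_toO.continuousOn, continuous_ofO.continuousOn,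
    fun f hf => (toO_mem_iff Y f).2 hf, fun p hp => ?_, fun f _ => ofO_toO f,
    fun p _ => toO_ofO p⟩
  rw [← toO_mem_iff, toO_ofO]
  exact hp

/-- Continuous functions on the sum, as a set. -/
def CZ : Set ((ℕ ⊕ Y) ⊕ Option JJ → ℝ) :=
  {f | (∀ y : Y, Tendsto (fun n => f (Sum.inl (Sum.inl n))) (Fy y)
    (𝓝 (f (Sum.inl (Sum.inr y))))) ∧ (fun j => f (Sum.inr j)) ∈ CX Y}

lemma he_CZ : He (CZ Y) (CM Y ×ˢ CX Y) := by
  refine ⟨fun f => ((fun n => f (Sum.inl (Sum.inl n)), fun y => f (Sum.inl (Sum.inr y))),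
      fun j => f (Sum.inr j)),
    fun p => Sum.elim (Sum.elim p.1.1 p.1.2) p.2, by fun_prop, ?_, fun f hf => hf,
    fun p hp => hp, ?_, fun p _ => rfl⟩
  · refine Continuous.continuousOn (continuous_pi fun k => ?_)
    match k with
    | Sum.inl (Sum.inl n) =>
      show Continuous fun p : ((ℕ → ℝ) × (Y → ℝ)) × (Option JJ → ℝ) => p.1.1 n
      fun_prop
    | Sum.inl (Sum.inr y) =>
      show Continuous fun p : ((ℕ → ℝ) × (Y → ℝ)) × (Option JJ → ℝ) => p.1.2 y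
      fun_prop
    | Sum.inr j =>
      show Continuous fun p : ((ℕ → ℝ) × (Y → ℝ)) × (Option JJ → ℝ) => p.2 j
      fun_prop
  · intro f _
    funext k
    match k with
    | Sum.inl (Sum.inl n) => rfl
    | Sum.inl (Sum.inr y) => rfl
    | Sum.inr j => rfl

theorem cd_X_Z : Cd (CX Y) (CZ Y) :=
  (he_CX Y).cd.trans ((cd_two Y).trans
    (((he_CZ Y).trans ((He.refl _).prod (he_CX Y))).symm.cd))

theorem cd_Z_X : Cd (CZ Y) (CX Y) :=
  ((he_CZ Y).trans ((He.refl _).prod (he_CX Y))).cd.trans ((cd_one Y).trans (he_CX Y).symm.cd)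

end

end Pool.Agent.H568.NC
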