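import Pool.Agent.H568.NC.Defs

/-!
# NC-1 (job 2018, written by helper857): blocks with soft maximum
-/

set_option autoImplicit false
namespace Pool.Agent.H568.NC
open Set Filter Topology
noncomputable section

namespace Blk

lemma m_pos {a : ℝ} {r : ℕ → ℝ} (ha : 0 ≤ a) (hr : r ∈ Dd) (n : ℕ) : 0 < 1 / (a + r n) := by
  have := hr.1 n
  positivity

lemma m_lt {a : ℝ} {r : ℕ → ℝ} (ha : 0 ≤ a) (hr : r ∈ Dd) (n : ℕ) :
    1 / (a + r n) < 1 / (a + r (n + 1)) := by
  have h1 := hr.1 (n + 1)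
  have h2 := hr.2.1 n
  exact one_div_lt_one_div_of_lt (by linarith) (by linarith)

lemma half_two (n : ℕ) : (1 / 2 : ℝ) ^ n * 2 ^ n = 1 := by
  rw [← mul_pow]
  norm_num

lemma half_pos (n : ℕ) : 0 < (1 / 2 : ℝ) ^ n := by positivity

/-- the code is the solution of the equation -/
lemma rho_Lam (n : ℕ) {m M : ℝ} (_hm : m < M) :
    rho n m (min (2 ^ n * (M - m)) M) = M := by
  have h1 := half_two n
  have h2 := half_pos n
  unfold rho
  rcases le_total (2 ^ n * (M - m)) M with h | h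
  · rw [min_eq_left h]
    have e : m + (1 / 2) ^ n * (2 ^ n * (M - m)) = M := by
      rw [← mul_assoc, h1]
      ring
    rw [e]
    exact max_eq_left h
  · rw [min_eq_right h]
    refine max_eq_right ?_
    have h3 : (1 / 2) ^ n * M ≤ (1 / 2) ^ n * (2 ^ n * (M - m)) :=
      mul_le_mul_of_nonneg_left h h2.le
    rw [← mul_assoc, h1] at h3
    linarith

lemma Lam_rho (n : ℕ) {m h : ℝ} :
    min (2 ^ n * (rho n m h - m)) (rho n m h) = h := by
  have h1 := half_two n
  have h2 := half_pos n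
  have h3 : (0 : ℝ) < 2 ^ n := by positivity
  unfold rho
  rcases le_total (m + (1 / 2) ^ n * h) h with h4 | h4
  · rw [max_eq_right h4]
    refine min_eq_right ?_
    have h5 : (1 / 2) ^ n * h ≤ h - m := by linarith
    have h6 : 2 ^ n * ((1 / 2) ^ n * h) ≤ 2 ^ n * (h - m) := mul_le_mul_of_nonneg_left h5 h3.le
    have e : 2 ^ n * ((1 / 2) ^ n * h) = h := by
      rw [← mul_assoc, mul_comm ((2 : ℝ) ^ n), h1, one_mul]
    rwa [e] at h6
  · rw [max_eq_left h4]
    have e : 2 ^ n * (m + (1 / 2) ^ n * h - m) = h := by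
      have : 2 ^ n * (m + (1 / 2) ^ n * h - m) = ((1 / 2) ^ n * 2 ^ n) * h := by ring
      rw [this, h1, one_mul]
    rw [e]
    exact min_eq_left h4

/-- the increasing sequence with code `h` -/
def ms (h : ℕ → ℝ) : ℕ → ℝ
  | 0 => h 0
  | n + 1 => rho (n + 1) (ms h n) (h (n + 1))

lemma ms_pos_lt {h : ℕ → ℝ} (hh : ∀ n, 0 < h n) (n : ℕ) : 0 < ms h n ∧ ms h n < ms h (n + 1) := by
  have lt : ∀ n, ms h n < ms h (n + 1) := by
    intro n
    show ms h n < max (ms h n + (1 / 2) ^ (n + 1) * h (n + 1)) (h (n + 1))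
    refine lt_max_of_lt_left ?_
    have := mul_pos (half_pos (n + 1)) (hh (n + 1))
    linarith
  refine ⟨?_, lt n⟩
  induction n with
  | zero => exact hh 0
  | succ n ih => exact ih.trans (lt n)

end Blk

open Blk

theorem blk_pos {a : ℝ} {r : ℕ → ℝ} (ha : 0 ≤ a) (hr : r ∈ Dd) (n : ℕ) : 0 < blk a r n := by
  cases n with
  | zero => exact m_pos ha hr 0
  | succ n =>
    show 0 < min (2 ^ (n + 1) * (1 / (a + r (n + 1)) - 1 / (a + r n))) (1 / (a + r (n + 1)))
    have h1 := m_lt ha hr n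
    exact lt_min (mul_pos (by positivity) (by linarith)) (m_pos ha hr _)

theorem blk_rho_zero {a : ℝ} {r : ℕ → ℝ} (_ha : 0 ≤ a) (_hr : r ∈ Dd) :
    rho 0 0 (blk a r 0) = 1 / (a + r 0) := by
  show max (0 + (1 / 2) ^ 0 * (1 / (a + r 0))) (1 / (a + r 0)) = _
  rw [pow_zero, one_mul, zero_add, max_self]

theorem blk_rho_succ {a : ℝ} {r : ℕ → ℝ} (ha : 0 ≤ a) (hr : r ∈ Dd) (n : ℕ) :
    rho (n + 1) (1 / (a + r n)) (blk a r (n + 1)) = 1 / (a + r (n + 1)) :=
  rho_Lam (n + 1) (m_lt ha hr n)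

theorem blk_mul_le {a : ℝ} {r : ℕ → ℝ} (ha : 0 ≤ a) (hr : r ∈ Dd) (n : ℕ) :
    blk a r n * a ≤ 1 := by
  have h1 : blk a r n ≤ 1 / (a + r n) := by
    cases n with
    | zero => exact le_rfl
    | succ n => exact min_le_right _ _
  have h2 := hr.1 n
  have h3 : 0 < a + r n := by linarith
  calc blk a r n * a ≤ 1 / (a + r n) * a := mul_le_mul_of_nonneg_right h1 ha
    _ ≤ 1 := by rw [one_div, inv_mul_le_iff₀ h3]; linarith

theorem one_le_of_blk_le {a ε : ℝ} {r : ℕ → ℝ} (ha : 0 ≤ a) (hr : r ∈ Dd) (hε : 0 < ε)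
    (h : ∀ n, blk a r n ≤ ε) : 1 ≤ 3 * ε * a := by
  have key : ∀ n, 1 / (a + r n) ≤ ε * (2 - (1 / 2) ^ n) := by
    intro n
    induction n with
    | zero =>
      have := h 0
      have e : blk a r 0 = 1 / (a + r 0) := rfl
      rw [e] at this
      rw [pow_zero]
      linarith
    | succ n ih =>
      rw [← blk_rho_succ ha hr n]
      have h1 := h (n + 1)
      have h2 := half_pos (n + 1)
      have e : (1 / 2 : ℝ) ^ n = 2 * (1 / 2) ^ (n + 1) := by rw [pow_succ]; ring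
      have h3 : (1 / 2 : ℝ) ^ (n + 1) ≤ 1 := pow_le_one₀ (by norm_num) (by norm_num)
      unfold rho
      refine max_le ?_ ?_
      · have h4 : (1 / 2) ^ (n + 1) * blk a r (n + 1) ≤ (1 / 2) ^ (n + 1) * ε :=
          mul_le_mul_of_nonneg_left h1 h2.le
        rw [e] at ih
        nlinarith
      · nlinarith
  have h2 : ∀ n, 1 ≤ 2 * ε * (a + r n) := by
    intro n
    have h3 := key n
    have h4 := hr.1 n
    have h5 : 0 < a + r n := by linarith
    have h6 := half_pos n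
    have h7 : 1 / (a + r n) ≤ 2 * ε := by nlinarith
    rw [div_le_iff₀ h5] at h7
    exact h7
  have h8 : Tendsto (fun n => 2 * ε * (a + r n)) atTop (𝓝 (2 * ε * (a + 0))) :=
    (hr.2.2.const_add a).const_mul _
  have h9 := ge_of_tendsto' h8 h2
  have h10 : 0 ≤ ε * a := mul_nonneg hε.le ha
  rw [add_zero] at h9
  linarith

theorem continuousOn_blk (n : ℕ) :
    ContinuousOn (fun p : ℝ × (ℕ → ℝ) => blk p.1 p.2 n) (Ici 0 ×ˢ Dd) := by
  have h1 : ∀ k, ContinuousOn (fun p : ℝ × (ℕ → ℝ) => 1 / (p.1 + p.2 k)) (Ici 0 ×ˢ Dd) := by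
    intro k
    have hc : Continuous fun p : ℝ × (ℕ → ℝ) => p.1 + p.2 k :=
      continuous_fst.add ((continuous_apply k).comp continuous_snd)
    refine continuousOn_const.div hc.continuousOn ?_
    rintro ⟨a, r⟩ ⟨ha, hr⟩
    have h2 := hr.1 k
    have h3 : (0 : ℝ) ≤ a := ha
    show a + r k ≠ 0
    exact (by linarith : 0 < a + r k).ne'
  cases n with
  | zero => exact h1 0
  | succ n =>
    exact (continuousOn_const.mul ((h1 (n + 1)).sub (h1 n))).inf (h1 (n + 1))

theorem blk_bij : BijOn (fun p : ℝ × (ℕ → ℝ) => blk p.1 p.2) (Ici 0 ×ˢ Dd)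
    {h : ℕ → ℝ | ∀ n, 0 < h n} := by
  refine ⟨?_, ?_, ?_⟩
  · rintro ⟨a, r⟩ ⟨ha, hr⟩ n
    exact blk_pos ha hr n
  · rintro ⟨a, r⟩ ⟨ha, hr⟩ ⟨a', r'⟩ ⟨ha', hr'⟩ h
    have h0 : blk a r = blk a' r' := h
    have key : ∀ n, 1 / (a + r n) = 1 / (a' + r' n) := by
      intro n
      induction n with
      | zero => exact congrFun h0 0
      | succ n ih =>
        rw [← blk_rho_succ ha hr n, ← blk_rho_succ ha' hr' n, ih, h0]
    have h1 : ∀ n, a + r n = a' + r' n := by
      intro n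
      have := key n
      rwa [one_div, one_div, inv_inj] at this
    have h2 : Tendsto (fun n => a + r n) atTop (𝓝 (a + 0)) := hr.2.2.const_add a
    have h3 : Tendsto (fun n => a' + r' n) atTop (𝓝 (a' + 0)) := hr'.2.2.const_add a'
    have h4 : a + 0 = a' + 0 := tendsto_nhds_unique (h2.congr h1) h3
    have h5 : a = a' := by simpa using h4
    subst h5
    have h6 : r = r' := funext fun n => by have := h1 n; linarith
    rw [h6]
  · intro h hh
    have hh' : ∀ n, 0 < h n := hh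
    have h1 := ms_pos_lt hh'
    have hq : ∀ n, 1 / ms h (n + 1) < 1 / ms h n := fun n =>
      one_div_lt_one_div_of_lt (h1 n).1 (h1 n).2
    have hanti : Antitone fun n => 1 / ms h n := antitone_nat_of_succ_le fun n => (hq n).le
    have hbdd : BddBelow (range fun n => 1 / ms h n) := by
      refine ⟨0, ?_⟩
      rintro _ ⟨n, rfl⟩
      have := (h1 n).1
      positivity
    have hlim := tendsto_atTop_ciInf hanti hbdd
    obtain ⟨a, ha⟩ : ∃ a, a = ⨅ n, 1 / ms h n := ⟨_, rfl⟩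
    rw [← ha] at hlim
    have ha0 : 0 ≤ a := by
      refine ge_of_tendsto' hlim fun n => ?_
      have := (h1 n).1
      positivity
    have hlt : ∀ n, a < 1 / ms h n := by
      intro n
      have h2 : a ≤ 1 / ms h (n + 1) :=
        le_of_tendsto hlim (eventually_atTop.2 ⟨n + 1, fun k hk => hanti hk⟩)
      exact h2.trans_lt (hq n)
    refine ⟨(a, fun n => 1 / ms h n - a), ⟨ha0, ?_, ?_, ?_⟩, ?_⟩
    · intro n
      have := hlt n
      show 0 < 1 / ms h n - a
      linarith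
    · intro n
      have := hq n
      show 1 / ms h (n + 1) - a < 1 / ms h n - a
      linarith
    · have := hlim.sub_const a
      rwa [sub_self] at this
    · funext n
      have e : ∀ n, 1 / (a + (1 / ms h n - a)) = ms h n := by
        intro n
        have := (h1 n).1
        rw [add_sub_cancel, one_div_one_div]
      cases n with
      | zero => exact e 0
      | succ n =>
        show min (2 ^ (n + 1) * (1 / (a + (1 / ms h (n + 1) - a)) - 1 / (a + (1 / ms h n - a))))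
          (1 / (a + (1 / ms h (n + 1) - a))) = h (n + 1)
        rw [e, e]
        exact Lam_rho (n + 1)

/-- The block decoding for families. -/
def blkF (p : (ℕ → ℝ) × (ℕ → ℕ → ℝ)) : ℕ × ℕ → ℝ := fun q => blk (p.1 q.1) (p.2 q.1) q.2

theorem cd_blkF (Y : Set (ℕ → Bool)) :
    ContinuousOn blkF (AT Y ×ˢ DdF) ∧ BijOn blkF (AT Y ×ˢ DdF) (EP (FP Y)) := by
  refine ⟨?_, ?_, ?_, ?_⟩
  · refine continuousOn_pi.2 fun q => ?_
    have h1 : Continuous fun p : (ℕ → ℝ) × (ℕ → ℕ → ℝ) => (p.1 q.1, p.2 q.1) :=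
      ((continuous_apply q.1).comp continuous_fst).prodMk
        ((continuous_apply q.1).comp continuous_snd)
    exact (continuousOn_blk q.2).comp h1.continuousOn
      (fun p hp => ⟨hp.1.1 q.1, hp.2 q.1⟩)
  · rintro ⟨a, r⟩ ⟨ha, hr⟩
    have ha1 : ∀ s, 0 ≤ a s := ha.1
    refine ⟨fun q => blk_pos (ha1 q.1) (hr q.1) q.2, ?_⟩
    rintro _ ⟨y, hy, rfl⟩
    have h1 : Tendsto a (Fy y) atTop := ha.2 y hy
    have h2 : Tendsto (fun q : ℕ × ℕ => a q.1) (comap Prod.fst (Fy y)) atTop :=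
      h1.comp tendsto_comap
    have h3 : Tendsto (fun q : ℕ × ℕ => (a q.1)⁻¹) (comap Prod.fst (Fy y)) (𝓝 0) :=
      tendsto_inv_atTop_zero.comp h2
    refine squeeze_zero' (Eventually.of_forall fun q =>
      (blk_pos (ha1 q.1) (hr q.1) q.2).le) ?_ h3
    filter_upwards [h2.eventually_gt_atTop 0] with q hq
    have h4 := blk_mul_le (ha1 q.1) (hr q.1) q.2
    show blk (a q.1) (r q.1) q.2 ≤ (a q.1)⁻¹
    rw [← one_div, le_div_iff₀ hq]
    exact h4
  · rintro ⟨a, r⟩ ⟨ha, hr⟩ ⟨a', r'⟩ ⟨ha', hr'⟩ h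
    have key : ∀ s, (a s, r s) = (a' s, r' s) := by
      intro s
      refine blk_bij.injOn (⟨ha.1 s, hr s⟩ : (a s, r s) ∈ Ici (0 : ℝ) ×ˢ Dd)
        (⟨ha'.1 s, hr' s⟩ : (a' s, r' s) ∈ Ici (0 : ℝ) ×ˢ Dd) ?_
      funext n
      exact congrFun h (s, n)
    refine Prod.ext ?_ ?_
    · funext s
      exact congrArg Prod.fst (key s)
    · funext s
      exact congrArg Prod.snd (key s)
  · intro h hh
    have hh1 : ∀ q, 0 < h q := hh.1
    have hex : ∀ s, ∃ p : ℝ × (ℕ → ℝ), p ∈ Ici (0 : ℝ) ×ˢ Dd ∧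
        blk p.1 p.2 = fun n => h (s, n) := by
      intro s
      obtain ⟨p, hp, he⟩ := blk_bij.surjOn
        (show (fun n => h (s, n)) ∈ {h : ℕ → ℝ | ∀ n, 0 < h n} from fun n => hh1 (s, n))
      exact ⟨p, hp, he⟩
    choose p hp he using hex
    refine ⟨(fun s => (p s).1, fun s => (p s).2), ⟨⟨fun s => (hp s).1, ?_⟩,
      fun s => (hp s).2⟩, ?_⟩
    · intro y hy
      have h1 : Tendsto h (comap Prod.fst (Fy y)) (𝓝 0) := hh.2 _ ⟨y, hy, rfl⟩
      rw [tendsto_atTop]
      intro K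
      obtain ⟨K', hK', hKK⟩ : ∃ K' : ℝ, 0 < K' ∧ K ≤ K' :=
        ⟨max K 1, by positivity, le_max_left _ _⟩
      have h2 : (0 : ℝ) < 1 / (3 * K') := by positivity
      have h3 := h1.eventually_lt_const h2
      rw [eventually_comap] at h3
      filter_upwards [h3] with s hs
      have h4 : ∀ n, blk (p s).1 (p s).2 n ≤ 1 / (3 * K') := by
        intro n
        rw [he s]
        exact (hs (s, n) rfl).le
      have h5 := one_le_of_blk_le (hp s).1 (hp s).2 h2 h4
      have e : 3 * (1 / (3 * K')) * (p s).1 = (p s).1 / K' := by field_simp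
      rw [e, le_div_iff₀ hK'] at h5
      show K ≤ (p s).1
      linarith
    · funext q
      exact congrFun (he q.1) q.2

end
end Pool.Agent.H568.NC
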