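import Pool.Agent.H568.NC.Dec
import Pool.Agent.H568.NC.Blk

/-!
The continuous bijection onto the space of continuous functions on `ℕ ∪ Y`.
-/

set_option autoImplicit false

namespace Pool.Agent.H568.NC

open Set Filter Topology

noncomputable section

/-- Adding the limits. -/
def limF {Y : Set (ℕ → Bool)} (g : ℕ → ℝ) : Y → ℝ := fun y => limUnder (Fy y) g

lemma limF_tendsto {Y : Set (ℕ → Bool)} {g : ℕ → ℝ} (hg : g ∈ LM Y) (y : Y) :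
    Tendsto g (Fy y) (𝓝 (limF g y)) := by
  have := Fy_neBot y.1
  exact tendsto_nhds_limUnder (hg y.1 y.2)

lemma bijOn_limF (Y : Set (ℕ → Bool)) :
    BijOn (fun p : (ℕ → ℝ) × (ℕ × ℕ → ℝ) => ((p.1, (limF p.1 : Y → ℝ)), p.2))
      (LM Y ×ˢ EP (FP Y)) (CM Y ×ˢ EP (FP Y)) := by
  refine ⟨?_, ?_, ?_⟩
  · rintro ⟨g, h⟩ ⟨hg, hh⟩
    exact ⟨fun y => limF_tendsto hg y, hh⟩
  · rintro ⟨g, h⟩ - ⟨g', h'⟩ - he
    exact Prod.ext (congrArg (fun q => q.1.1) he) (congrArg (fun q => q.2) he)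
  · rintro ⟨⟨g, f⟩, h⟩ ⟨hg, hh⟩
    have hgL : g ∈ LM Y := fun y hy => ⟨_, hg ⟨y, hy⟩⟩
    refine ⟨(g, h), ⟨hgL, hh⟩, ?_⟩
    refine Prod.ext (Prod.ext rfl (funext fun y => ?_)) rfl
    have := Fy_neBot y.1
    exact tendsto_nhds_unique (limF_tendsto hgL y) (hg y)

/-- The parameters to the pair `(c, h)`. -/
def pre (p : (ℕ → ℝ) × ((ℕ → ℝ) × (ℕ → ℕ → ℝ))) : (ℕ → ℝ) × (ℕ × ℕ → ℝ) := (p.1, blkF p.2)

lemma bijOn_pre (Y : Set (ℕ → Bool)) :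
    BijOn pre ((univ : Set (ℕ → ℝ)) ×ˢ (AT Y ×ˢ DdF)) ((univ : Set (ℕ → ℝ)) ×ˢ EP (FP Y)) :=
  (bijOn_id univ).prodMap (cd_blkF Y).2

lemma continuousOn_pre (Y : Set (ℕ → Bool)) :
    ContinuousOn pre ((univ : Set (ℕ → ℝ)) ×ˢ (AT Y ×ˢ DdF)) :=
  (continuous_id.continuousOn).prodMap (cd_blkF Y).1

lemma lim_close {Y : Set (ℕ → Bool)} {p : (ℕ → ℝ) × ((ℕ → ℝ) × (ℕ → ℕ → ℝ))}
    (hp : p ∈ (univ : Set (ℕ → ℝ)) ×ˢ (AT Y ×ˢ DdF)) (y : Y) {s : ℕ} (hs : 0 < p.2.1 s)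
    (hc : ∀ᶠ t in Fy y.1, Cone s t) :
    |limF (Kf (pre p)).1 y - (Kf (pre p)).1 s| ≤ 3 * (1 / p.2.1 s) := by
  have hpre := (bijOn_pre Y).mapsTo hp
  have hK := (bijOn_Kf Y).mapsTo hpre
  have ha : Ad (Kf (pre p)).1 (blkF p.2) := ad_dec _ hpre.2.1
  have hb : ∀ t, blkF p.2 (s, t) ≤ 1 / p.2.1 s := by
    intro t
    rw [le_div_iff₀ hs]
    exact blk_mul_le (hp.2.1.1 s) (hp.2.2 s) t
  have := Fy_neBot y.1
  have h1 : Tendsto (fun t => |(Kf (pre p)).1 t - (Kf (pre p)).1 s|) (Fy y.1)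
      (𝓝 |limF (Kf (pre p)).1 y - (Kf (pre p)).1 s|) :=
    ((limF_tendsto hK.1 y).sub_const _).abs
  refine le_of_tendsto h1 ?_
  filter_upwards [hc] with t ht
  exact abs_sub_le_of_ad ha (by positivity) hb ht

theorem cd_CM (Y : Set (ℕ → Bool)) :
    Cd ((univ : Set (ℕ → ℝ)) ×ˢ (AT Y ×ˢ DdF)) (CM Y ×ˢ EP (FP Y)) := by
  refine ⟨(fun p : (ℕ → ℝ) × (ℕ × ℕ → ℝ) => ((p.1, (limF p.1 : Y → ℝ)), p.2)) ∘ (Kf ∘ pre),
    ?_, (bijOn_limF Y).comp ((bijOn_Kf Y).comp (bijOn_pre Y))⟩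
  have hcont : ContinuousOn (Kf ∘ pre) ((univ : Set (ℕ → ℝ)) ×ˢ (AT Y ×ˢ DdF)) :=
    continuous_Kf.comp_continuousOn (continuousOn_pre Y)
  refine ContinuousOn.prodMk (ContinuousOn.prodMk (continuous_fst.comp_continuousOn hcont)
    (continuousOn_pi.2 fun y => ?_)) (continuous_snd.comp_continuousOn hcont)
  intro p0 hp0
  rw [ContinuousWithinAt, Metric.tendsto_nhds]
  intro ε hε
  have hgs : ∀ s, ContinuousOn (fun p => (Kf (pre p)).1 s)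
      ((univ : Set (ℕ → ℝ)) ×ˢ (AT Y ×ˢ DdF)) := fun s =>
    ((continuous_apply s).comp continuous_fst).comp_continuousOn hcont
  obtain ⟨s, hs1, hs2⟩ := ((frequently_cone y.1).and_eventually
    ((hp0.2.1.2 y.1 y.2).eventually (eventually_gt_atTop (12 / ε)))).exists
  have h12 : 0 < 12 / ε := by positivity
  have hsmall : ∀ x : ℝ, 12 / ε < x → 3 * (1 / x) < ε / 4 := by
    intro x hx
    have hx0 : 0 < x := h12.trans hx
    rw [div_lt_iff₀ hε] at hx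
    rw [mul_one_div, div_lt_iff₀ hx0]
    nlinarith
  have e1 : ∀ᶠ p in 𝓝[(univ : Set (ℕ → ℝ)) ×ˢ (AT Y ×ˢ DdF)] p0, 12 / ε < p.2.1 s := by
    have : Continuous fun p : (ℕ → ℝ) × ((ℕ → ℝ) × (ℕ → ℕ → ℝ)) => p.2.1 s := by fun_prop
    exact (this.continuousAt.eventually (lt_mem_nhds hs2)).filter_mono nhdsWithin_le_nhds
  have e2 : ∀ᶠ p in 𝓝[(univ : Set (ℕ → ℝ)) ×ˢ (AT Y ×ˢ DdF)] p0,
      |(Kf (pre p)).1 s - (Kf (pre p0)).1 s| < ε / 4 := by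
    have := Metric.tendsto_nhds.1 (hgs s p0 hp0) (ε / 4) (by positivity)
    simpa only [Real.dist_eq] using this
  filter_upwards [e1, e2, self_mem_nhdsWithin] with p hp1 hp2 hp3
  have f1 := lim_close hp3 y (h12.trans hp1) hs1
  have f2 := lim_close hp0 y (h12.trans hs2) hs1
  have f3 := hsmall _ hp1
  have f4 := hsmall _ hs2
  show dist (limF (Kf (pre p)).1 y) (limF (Kf (pre p0)).1 y) < ε
  rw [Real.dist_eq]
  have g1 : |limF (Kf (pre p)).1 y - limF (Kf (pre p0)).1 y| ≤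
      |limF (Kf (pre p)).1 y - (Kf (pre p)).1 s| + |(Kf (pre p)).1 s - (Kf (pre p0)).1 s| +
      |limF (Kf (pre p0)).1 y - (Kf (pre p0)).1 s| := by
    rw [abs_sub_comm (limF (Kf (pre p0)).1 y)]
    calc |limF (Kf (pre p)).1 y - limF (Kf (pre p0)).1 y|
        ≤ |limF (Kf (pre p)).1 y - (Kf (pre p)).1 s| +
          |(Kf (pre p)).1 s - limF (Kf (pre p0)).1 y| := abs_sub_le _ _ _
      _ ≤ _ := by
        have := abs_sub_le ((Kf (pre p)).1 s) ((Kf (pre p0)).1 s) (limF (Kf (pre p0)).1 y)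
        linarith
  linarith

end

end Pool.Agent.H568.NC
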