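import Pool.Agent.H568.NC.Defs

/-!
The half line is absorbed by countably many lines.
-/

set_option autoImplicit false

namespace Pool.Agent.H568.NC

open Set Filter Topology

noncomputable section

/-- A homeomorphism from the line onto `(0, 1)`. -/
def sg (x : ℝ) : ℝ := (1 + x / (1 + |x|)) / 2

/-- Its inverse. -/
def lg (p : ℝ) : ℝ := (2 * p - 1) / (1 - |2 * p - 1|)

lemma sg_aux (x : ℝ) : |x / (1 + |x|)| < 1 := by
  have h : 0 < 1 + |x| := by positivity
  rw [abs_div, abs_of_pos h, div_lt_one h]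
  linarith

lemma sg_pos (x : ℝ) : 0 < sg x := by
  have := (abs_lt.1 (sg_aux x)).1
  unfold sg; linarith

lemma sg_lt_one (x : ℝ) : sg x < 1 := by
  have := (abs_lt.1 (sg_aux x)).2
  unfold sg; linarith

lemma lg_sg (x : ℝ) : lg (sg x) = x := by
  have h : 0 < 1 + |x| := by positivity
  unfold lg sg
  have e1 : 2 * ((1 + x / (1 + |x|)) / 2) - 1 = x / (1 + |x|) := by ring
  rw [e1, abs_div, abs_of_pos h]
  field_simp
  ring

lemma sg_lg {p : ℝ} (h0 : 0 < p) (h1 : p < 1) : sg (lg p) = p := by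
  unfold lg sg
  set q := 2 * p - 1 with hq
  have hq1 : |q| < 1 := by rw [abs_lt]; constructor <;> linarith
  have h : 0 < 1 - |q| := by linarith
  have e1 : |q / (1 - |q|)| = |q| / (1 - |q|) := by rw [abs_div, abs_of_pos h]
  rw [e1]
  have e2 : 1 + |q| / (1 - |q|) = 1 / (1 - |q|) := by field_simp; ring
  rw [e2]
  have e3 : q / (1 - |q|) / (1 / (1 - |q|)) = q := by field_simp
  rw [e3, hq]; ring

lemma continuous_sg : Continuous sg := by
  unfold sg
  refine Continuous.div_const (continuous_const.add (Continuous.div continuous_id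
    (continuous_const.add continuous_abs) ?_)) _
  intro x
  have : 0 < 1 + |x| := by positivity
  exact this.ne'

lemma continuousOn_lg : ContinuousOn lg (Ioo 0 1) := by
  unfold lg
  refine ContinuousOn.div (by fun_prop) (by fun_prop) ?_
  rintro p ⟨h0, h1⟩
  have : |2 * p - 1| < 1 := by rw [abs_lt]; constructor <;> linarith
  linarith

/-! ### the forward map -/

/-- Remaining amounts. -/
def tt (N : ℕ) (t0 : ℝ) (c : ℕ → ℝ) : ℕ → ℝ
  | 0 => t0
  | n + 1 => tt N t0 c n - (if n < N then 0 else min ((1 / 2) ^ n) (max (tt N t0 c n) 0) * sg (c n))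

/-- The steps. -/
def vv (N : ℕ) (t0 : ℝ) (c : ℕ → ℝ) (n : ℕ) : ℝ :=
  if n < N then 0 else min ((1 / 2) ^ n) (max (tt N t0 c n) 0) * sg (c n)

lemma tt_succ (N : ℕ) (t0 : ℝ) (c : ℕ → ℝ) (n : ℕ) :
    tt N t0 c (n + 1) = tt N t0 c n - vv N t0 c n := rfl

lemma vv_nonneg (N : ℕ) (t0 : ℝ) (c : ℕ → ℝ) (n : ℕ) : 0 ≤ vv N t0 c n := by
  unfold vv
  split_ifs
  · exact le_rfl
  · exact mul_nonneg (le_min (by positivity) (le_max_right _ _)) (sg_pos _).le

lemma vv_le (N : ℕ) (t0 : ℝ) (c : ℕ → ℝ) (n : ℕ) : vv N t0 c n ≤ (1 / 2) ^ n := by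
  unfold vv
  split_ifs
  · positivity
  · calc min ((1 / 2 : ℝ) ^ n) (max (tt N t0 c n) 0) * sg (c n)
        ≤ (1 / 2) ^ n * 1 := mul_le_mul (min_le_left _ _) (sg_lt_one _).le (sg_pos _).le
          (by positivity)
      _ = _ := mul_one _

lemma tt_pos {N : ℕ} {t0 : ℝ} (h0 : 0 < t0) (c : ℕ → ℝ) (n : ℕ) : 0 < tt N t0 c n := by
  induction n with
  | zero => exact h0
  | succ n ih =>
    rw [tt_succ]
    unfold vv
    split_ifs
    · simpa using ih
    · have h1 : min ((1 / 2 : ℝ) ^ n) (max (tt N t0 c n) 0) ≤ tt N t0 c n := by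
        refine (min_le_right _ _).trans ?_
        rw [max_eq_left ih.le]
      have h2 : 0 < min ((1 / 2 : ℝ) ^ n) (max (tt N t0 c n) 0) :=
        lt_min (by positivity) (lt_max_of_lt_left ih)
      have h3 := sg_lt_one (c n)
      nlinarith

lemma continuous_tt (N n : ℕ) : Continuous fun p : ℝ × (ℕ → ℝ) => tt N p.1 p.2 n := by
  induction n with
  | zero => exact continuous_fst
  | succ n ih =>
    show Continuous fun p : ℝ × (ℕ → ℝ) => tt N p.1 p.2 n -
      (if n < N then 0 else min ((1 / 2) ^ n) (max (tt N p.1 p.2 n) 0) * sg (p.2 n))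
    refine ih.sub ?_
    split_ifs
    · exact continuous_const
    · exact (continuous_const.min (ih.max continuous_const)).mul
        (continuous_sg.comp ((continuous_apply n).comp continuous_snd))

lemma continuous_vv (N n : ℕ) : Continuous fun p : ℝ × (ℕ → ℝ) => vv N p.1 p.2 n := by
  unfold vv
  split_ifs
  · exact continuous_const
  · exact (continuous_const.min ((continuous_tt N n).max continuous_const)).mul
      (continuous_sg.comp ((continuous_apply n).comp continuous_snd))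

lemma summable_half : Summable fun n : ℕ => (1 / 2 : ℝ) ^ n :=
  summable_geometric_of_lt_one (by norm_num) (by norm_num)

lemma summable_vv (N : ℕ) (t0 : ℝ) (c : ℕ → ℝ) : Summable (vv N t0 c) :=
  Summable.of_nonneg_of_le (vv_nonneg N t0 c) (vv_le N t0 c) summable_half

lemma continuous_tsum_vv (N : ℕ) :
    Continuous fun p : ℝ × (ℕ → ℝ) => ∑' n, vv N p.1 p.2 n := by
  refine continuous_tsum (continuous_vv N) summable_half ?_
  intro n p
  rw [Real.norm_of_nonneg (vv_nonneg _ _ _ _)]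
  exact vv_le _ _ _ _

lemma tt_eq (N : ℕ) (t0 : ℝ) (c : ℕ → ℝ) (n : ℕ) :
    tt N t0 c n = t0 - ∑ i ∈ Finset.range n, vv N t0 c i := by
  induction n with
  | zero => simp [tt]
  | succ n ih => rw [tt_succ, ih, Finset.sum_range_succ]; ring

lemma tt_tendsto (N : ℕ) (t0 : ℝ) (c : ℕ → ℝ) :
    Tendsto (tt N t0 c) atTop (𝓝 (t0 - ∑' i, vv N t0 c i)) := by
  have h := (summable_vv N t0 c).hasSum.tendsto_sum_nat
  have h2 := h.const_sub t0
  refine h2.congr fun n => ?_
  rw [tt_eq]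

/-- The forward map. -/
def Sf (N : ℕ) (p : ℝ × (ℕ → ℝ)) : ℝ × (ℕ → ℝ) :=
  (p.1 - ∑' n, vv N p.1 p.2 n, fun n => if n < N then p.2 n else lg (vv N p.1 p.2 n * 2 ^ n))

/-- Steps of the backward map. -/
def vb (N : ℕ) (x : ℕ → ℝ) (n : ℕ) : ℝ := if n < N then 0 else (1 / 2) ^ n * sg (x n)

/-- Remaining amounts of the backward map. -/
def tb (N : ℕ) (a : ℝ) (x : ℕ → ℝ) (n : ℕ) : ℝ := a + ∑' i, vb N x (i + n)

/-- The backward map. -/
def Sb (N : ℕ) (p : ℝ × (ℕ → ℝ)) : ℝ × (ℕ → ℝ) :=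
  (tb N p.1 p.2 0, fun n => if n < N then p.2 n else
    lg (vb N p.2 n / min ((1 / 2) ^ n) (tb N p.1 p.2 n)))

lemma vb_nonneg (N : ℕ) (x : ℕ → ℝ) (n : ℕ) : 0 ≤ vb N x n := by
  unfold vb
  split_ifs
  · exact le_rfl
  · exact mul_nonneg (by positivity) (sg_pos _).le

lemma vb_le (N : ℕ) (x : ℕ → ℝ) (n : ℕ) : vb N x n ≤ (1 / 2) ^ n := by
  unfold vb
  split_ifs
  · positivity
  · have := (sg_lt_one (x n)).le
    have h : (0 : ℝ) ≤ (1 / 2) ^ n := by positivity
    nlinarith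

lemma summable_vb (N : ℕ) (x : ℕ → ℝ) : Summable (vb N x) :=
  Summable.of_nonneg_of_le (vb_nonneg N x) (vb_le N x) summable_half

lemma tb_succ (N : ℕ) (a : ℝ) (x : ℕ → ℝ) (n : ℕ) :
    tb N a x n = vb N x n + tb N a x (n + 1) := by
  unfold tb
  have h := ((summable_nat_add_iff n).2 (summable_vb N x)).tsum_eq_zero_add
  rw [h]
  have : ∀ i, i + 1 + n = i + (n + 1) := fun i => by ring
  simp only [this, zero_add]
  ring

lemma tb_nonneg {N : ℕ} {a : ℝ} (ha : 0 ≤ a) (x : ℕ → ℝ) (n : ℕ) : 0 ≤ tb N a x n :=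
  add_nonneg ha (tsum_nonneg fun _ => vb_nonneg _ _ _)

lemma tb_pos {N : ℕ} {a : ℝ} (ha : 0 ≤ a) (x : ℕ → ℝ) (n : ℕ) : 0 < tb N a x n := by
  have hN : 0 < vb N x (max n N) := by
    unfold vb
    rw [if_neg (by simp)]
    exact mul_pos (by positivity) (sg_pos _)
  have key : ∀ k, 0 < tb N a x (n + k) → 0 < tb N a x n := by
    intro k
    induction k with
    | zero => exact id
    | succ k ih =>
      intro h
      apply ih
      rw [tb_succ]
      have := vb_nonneg N x (n + k)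
      have h' : 0 < tb N a x (n + k + 1) := h
      linarith
  apply key (max n N - n)
  have e : n + (max n N - n) = max n N := by have := le_max_left n N; omega
  rw [e, tb_succ]
  have := tb_nonneg (N := N) ha x (max n N + 1)
  linarith

lemma tb_eq (N : ℕ) (a : ℝ) (x : ℕ → ℝ) (n : ℕ) :
    tb N a x n = tb N a x 0 - ∑ i ∈ Finset.range n, vb N x i := by
  induction n with
  | zero => simp
  | succ n ih =>
    rw [Finset.sum_range_succ]
    have := tb_succ N a x n
    linarith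

lemma continuous_vb (N n : ℕ) : Continuous fun x : ℕ → ℝ => vb N x n := by
  unfold vb
  split_ifs
  · exact continuous_const
  · exact continuous_const.mul (continuous_sg.comp (continuous_apply n))

lemma continuous_tb (N n : ℕ) : Continuous fun p : ℝ × (ℕ → ℝ) => tb N p.1 p.2 n := by
  have h0 : Continuous fun p : ℝ × (ℕ → ℝ) => tb N p.1 p.2 0 := by
    unfold tb
    refine continuous_fst.add ?_
    refine continuous_tsum (u := fun n : ℕ => (1 / 2 : ℝ) ^ n) ?_ summable_half ?_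
    · intro i
      exact (continuous_vb N (i + 0)).comp continuous_snd
    · intro i p
      rw [Real.norm_of_nonneg (vb_nonneg _ _ _)]
      exact vb_le _ _ _
  simp only [tb_eq N _ _ n]
  refine h0.sub (continuous_finset_sum _ fun i _ => (continuous_vb N i).comp continuous_snd)

/-- The step quotient of the forward map lies in the unit interval. -/
lemma vv_mul_mem {N : ℕ} {t0 : ℝ} (h0 : 0 < t0) (c : ℕ → ℝ) {n : ℕ} (hn : ¬ n < N) :
    vv N t0 c n * 2 ^ n ∈ Ioo (0 : ℝ) 1 := by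
  have ht := tt_pos (N := N) h0 c n
  unfold vv
  rw [if_neg hn, max_eq_left ht.le]
  have h1 : 0 < min ((1 / 2 : ℝ) ^ n) (tt N t0 c n) := lt_min (by positivity) ht
  have h2 : min ((1 / 2 : ℝ) ^ n) (tt N t0 c n) ≤ (1 / 2) ^ n := min_le_left _ _
  have h3 := sg_pos (c n)
  have h4 := sg_lt_one (c n)
  have h5 : (1 / 2 : ℝ) ^ n * 2 ^ n = 1 := by rw [← mul_pow]; norm_num
  have h6 : (0 : ℝ) < 2 ^ n := by positivity
  constructor
  · positivity
  · calc min ((1 / 2 : ℝ) ^ n) (tt N t0 c n) * sg (c n) * 2 ^ n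
        < min ((1 / 2 : ℝ) ^ n) (tt N t0 c n) * 1 * 2 ^ n := by
          apply mul_lt_mul_of_pos_right _ h6
          exact mul_lt_mul_of_pos_left h4 h1
      _ ≤ (1 / 2) ^ n * 1 * 2 ^ n := by
          apply mul_le_mul_of_nonneg_right _ h6.le
          simpa using h2
      _ = 1 := by rw [mul_one, h5]

lemma vb_pos {N : ℕ} (x : ℕ → ℝ) {n : ℕ} (hn : ¬ n < N) : 0 < vb N x n := by
  unfold vb
  rw [if_neg hn]
  exact mul_pos (by positivity) (sg_pos _)

lemma vb_div_mem {N : ℕ} {a : ℝ} (ha : 0 ≤ a) (x : ℕ → ℝ) {n : ℕ} (hn : ¬ n < N) :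
    vb N x n / min ((1 / 2) ^ n) (tb N a x n) ∈ Ioo (0 : ℝ) 1 := by
  have h1 : 0 < min ((1 / 2 : ℝ) ^ n) (tb N a x n) := lt_min (by positivity) (tb_pos ha x n)
  have h2 := vb_pos x hn
  constructor
  · positivity
  · rw [div_lt_one h1, lt_min_iff]
    constructor
    · unfold vb
      rw [if_neg hn]
      have := sg_lt_one (x n)
      have h : (0 : ℝ) < (1 / 2) ^ n := by positivity
      nlinarith
    · rw [tb_succ]
      have := tb_pos (N := N) ha x (n + 1)
      linarith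

lemma continuousOn_Sf (N : ℕ) : ContinuousOn (Sf N) {p | 0 < p.1} := by
  unfold Sf
  refine ContinuousOn.prodMk (continuous_fst.sub (continuous_tsum_vv N)).continuousOn ?_
  refine continuousOn_pi.2 fun n => ?_
  by_cases hn : n < N
  · simp only [hn, if_true]
    exact ((continuous_apply n).comp continuous_snd).continuousOn
  · simp only [hn, if_false]
    refine continuousOn_lg.comp ((continuous_vv N n).mul continuous_const).continuousOn ?_
    intro p hp
    exact vv_mul_mem hp p.2 hn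

lemma continuousOn_Sb (N : ℕ) : ContinuousOn (Sb N) {p | 0 ≤ p.1} := by
  unfold Sb
  refine ContinuousOn.prodMk (continuous_tb N 0).continuousOn ?_
  refine continuousOn_pi.2 fun n => ?_
  by_cases hn : n < N
  · simp only [hn, if_true]
    exact ((continuous_apply n).comp continuous_snd).continuousOn
  · simp only [hn, if_false]
    refine continuousOn_lg.comp (ContinuousOn.div ((continuous_vb N n).comp
      continuous_snd).continuousOn (continuous_const.min (continuous_tb N n)).continuousOn ?_) ?_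
    · intro p hp
      exact (lt_min (by positivity) (tb_pos hp p.2 n)).ne'
    · intro p hp
      exact vb_div_mem hp p.2 hn

lemma Sf_fst_nonneg {N : ℕ} {p : ℝ × (ℕ → ℝ)} (hp : 0 < p.1) : 0 ≤ (Sf N p).1 :=
  ge_of_tendsto' (tt_tendsto N p.1 p.2) fun n => (tt_pos hp p.2 n).le

lemma Sb_fst_pos {N : ℕ} {p : ℝ × (ℕ → ℝ)} (hp : 0 ≤ p.1) : 0 < (Sb N p).1 := tb_pos hp p.2 0

lemma vb_Sf {N : ℕ} {p : ℝ × (ℕ → ℝ)} (hp : 0 < p.1) (n : ℕ) :
    vb N (Sf N p).2 n = vv N p.1 p.2 n := by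
  by_cases hn : n < N
  · simp [vb, vv, hn]
  · have h := vv_mul_mem hp p.2 hn
    have e : (Sf N p).2 n = lg (vv N p.1 p.2 n * 2 ^ n) := by simp [Sf, hn]
    rw [vb, if_neg hn, e, sg_lg h.1 h.2]
    have h5 : (1 / 2 : ℝ) ^ n * 2 ^ n = 1 := by rw [← mul_pow]; norm_num
    calc (1 / 2 : ℝ) ^ n * (vv N p.1 p.2 n * 2 ^ n)
        = vv N p.1 p.2 n * ((1 / 2 : ℝ) ^ n * 2 ^ n) := by ring
      _ = _ := by rw [h5, mul_one]

lemma tb_Sf {N : ℕ} {p : ℝ × (ℕ → ℝ)} (hp : 0 < p.1) (n : ℕ) :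
    tb N (Sf N p).1 (Sf N p).2 n = tt N p.1 p.2 n := by
  have h0 : tb N (Sf N p).1 (Sf N p).2 0 = p.1 := by
    unfold tb
    simp only [add_zero, vb_Sf hp]
    simp [Sf]
  rw [tb_eq, tt_eq, h0]
  simp only [vb_Sf hp]

lemma Sb_Sf {N : ℕ} {p : ℝ × (ℕ → ℝ)} (hp : 0 < p.1) : Sb N (Sf N p) = p := by
  refine Prod.ext ?_ ?_
  · show tb N (Sf N p).1 (Sf N p).2 0 = p.1
    rw [tb_Sf hp]; rfl
  · funext n
    show (if n < N then (Sf N p).2 n else
      lg (vb N (Sf N p).2 n / min ((1 / 2) ^ n) (tb N (Sf N p).1 (Sf N p).2 n))) = p.2 n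
    by_cases hn : n < N
    · simp [hn, Sf]
    · rw [if_neg hn, vb_Sf hp, tb_Sf hp]
      have ht := tt_pos (N := N) hp p.2 n
      have h1 : 0 < min ((1 / 2 : ℝ) ^ n) (tt N p.1 p.2 n) := lt_min (by positivity) ht
      unfold vv
      rw [if_neg hn, max_eq_left ht.le, mul_div_cancel_left₀ _ h1.ne', lg_sg]

lemma tt_Sb {N : ℕ} {p : ℝ × (ℕ → ℝ)} (hp : 0 ≤ p.1) (n : ℕ) :
    tt N (Sb N p).1 (Sb N p).2 n = tb N p.1 p.2 n := by
  induction n with
  | zero => rfl
  | succ n ih =>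
    rw [tt_succ]
    have hv : vv N (Sb N p).1 (Sb N p).2 n = vb N p.2 n := by
      unfold vv
      by_cases hn : n < N
      · simp [vb, hn]
      · rw [if_neg hn, ih]
        have ht := tb_pos (N := N) hp p.2 n
        have h1 : 0 < min ((1 / 2 : ℝ) ^ n) (tb N p.1 p.2 n) := lt_min (by positivity) ht
        have h2 := vb_div_mem hp p.2 hn
        have e : (Sb N p).2 n = lg (vb N p.2 n / min ((1 / 2) ^ n) (tb N p.1 p.2 n)) := by
          simp [Sb, hn]
        rw [e, sg_lg h2.1 h2.2, max_eq_left ht.le, mul_div_cancel₀ _ h1.ne']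
    rw [hv, ih, tb_succ N p.1 p.2 n]
    ring

lemma vv_Sb {N : ℕ} {p : ℝ × (ℕ → ℝ)} (hp : 0 ≤ p.1) (n : ℕ) :
    vv N (Sb N p).1 (Sb N p).2 n = vb N p.2 n := by
  have h1 := tt_succ N (Sb N p).1 (Sb N p).2 n
  rw [tt_Sb hp, tt_Sb hp, tb_succ N p.1 p.2 n] at h1
  linarith

lemma Sf_Sb {N : ℕ} {p : ℝ × (ℕ → ℝ)} (hp : 0 ≤ p.1) : Sf N (Sb N p) = p := by
  refine Prod.ext ?_ ?_
  · show (Sb N p).1 - ∑' n, vv N (Sb N p).1 (Sb N p).2 n = p.1
    simp only [vv_Sb hp]
    show tb N p.1 p.2 0 - _ = _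
    simp [tb]
  · funext n
    show (if n < N then (Sb N p).2 n else lg (vv N (Sb N p).1 (Sb N p).2 n * 2 ^ n)) = p.2 n
    by_cases hn : n < N
    · simp [hn, Sb]
    · rw [if_neg hn, vv_Sb hp, vb, if_neg hn]
      have h5 : (1 / 2 : ℝ) ^ n * 2 ^ n = 1 := by rw [← mul_pow]; norm_num
      have : (1 / 2 : ℝ) ^ n * sg (p.2 n) * 2 ^ n = sg (p.2 n) := by
        calc (1 / 2 : ℝ) ^ n * sg (p.2 n) * 2 ^ n = sg (p.2 n) * ((1 / 2 : ℝ) ^ n * 2 ^ n) := by
              ring
          _ = _ := by rw [h5, mul_one]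
      rw [this, lg_sg]

lemma Sf_fst_le (N : ℕ) (p : ℝ × (ℕ → ℝ)) : (Sf N p).1 ≤ p.1 := by
  show p.1 - _ ≤ p.1
  have : 0 ≤ ∑' n, vv N p.1 p.2 n := tsum_nonneg fun _ => vv_nonneg _ _ _ _
  linarith

lemma tsum_vv_le (N : ℕ) (t0 : ℝ) (c : ℕ → ℝ) : ∑' n, vv N t0 c n ≤ 2 * (1 / 2) ^ N := by
  have h1 : ∑' n, vv N t0 c n ≤ ∑' n, (if n < N then 0 else (1 / 2 : ℝ) ^ n) := by
    refine Summable.tsum_le_tsum ?_ (summable_vv N t0 c) ?_
    · intro n
      by_cases hn : n < N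
      · simp [vv, hn]
      · rw [if_neg hn]; exact vv_le _ _ _ _
    · refine Summable.of_nonneg_of_le ?_ ?_ summable_half
      · intro n; split_ifs <;> positivity
      · intro n; split_ifs
        · positivity
        · exact le_rfl
  refine h1.trans ?_
  have h2 : Summable (fun n : ℕ => if n < N then 0 else (1 / 2 : ℝ) ^ n) := by
    refine Summable.of_nonneg_of_le ?_ ?_ summable_half
    · intro n; split_ifs <;> positivity
    · intro n; split_ifs
      · positivity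
      · exact le_rfl
  rw [← h2.sum_add_tsum_nat_add N]
  have e1 : ∑ i ∈ Finset.range N, (if i < N then 0 else (1 / 2 : ℝ) ^ i) = 0 := by
    refine Finset.sum_eq_zero fun i hi => ?_
    rw [if_pos (Finset.mem_range.1 hi)]
  have e2 : ∀ i, (if i + N < N then 0 else (1 / 2 : ℝ) ^ (i + N)) = (1 / 2) ^ N * (1 / 2) ^ i := by
    intro i
    rw [if_neg (by omega), pow_add]; ring
  rw [e1, zero_add]
  simp only [e2]
  rw [tsum_mul_left, tsum_geometric_two]
  linarith

lemma le_Sf_fst (N : ℕ) (p : ℝ × (ℕ → ℝ)) : p.1 ≤ (Sf N p).1 + 2 * (1 / 2) ^ N := by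
  show p.1 ≤ p.1 - _ + _
  have := tsum_vv_le N p.1 p.2
  linarith

lemma Sf_snd {N : ℕ} (p : ℝ × (ℕ → ℝ)) {n : ℕ} (hn : n < N) : (Sf N p).2 n = p.2 n := by
  simp [Sf, hn]

lemma Sf_far {p : ℝ × (ℕ → ℝ)} (hp : 1 ≤ (Sf 0 p).1) : (Sf 0 p).2 = p.2 := by
  have hanti : ∀ n, (Sf 0 p).1 ≤ tt 0 p.1 p.2 n := by
    intro n
    rw [tt_eq]
    show p.1 - _ ≤ _
    have := (summable_vv 0 p.1 p.2).sum_le_tsum (Finset.range n) (fun i _ => vv_nonneg _ _ _ _)
    linarith
  funext n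
  have h1 : 1 ≤ tt 0 p.1 p.2 n := hp.trans (hanti n)
  have h2 : (1 / 2 : ℝ) ^ n ≤ 1 := pow_le_one₀ (by norm_num) (by norm_num)
  have h5 : (1 / 2 : ℝ) ^ n * 2 ^ n = 1 := by rw [← mul_pow]; norm_num
  show (if n < 0 then p.2 n else lg (vv 0 p.1 p.2 n * 2 ^ n)) = p.2 n
  rw [if_neg (by omega)]
  unfold vv
  rw [if_neg (by omega), max_eq_left (by linarith), min_eq_left (h2.trans h1)]
  have : (1 / 2 : ℝ) ^ n * sg (p.2 n) * 2 ^ n = sg (p.2 n) := by
    calc (1 / 2 : ℝ) ^ n * sg (p.2 n) * 2 ^ n = sg (p.2 n) * ((1 / 2 : ℝ) ^ n * 2 ^ n) := by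
          ring
      _ = _ := by rw [h5, mul_one]
  rw [this, lg_sg]

end

end Pool.Agent.H568.NC
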