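import Pool.Agent.H568.NC.TreeF
import Pool.Agent.H568.NC.Ray

/-!
Functions converging along `Y`, coded by free real parameters and positive widths.
-/

set_option autoImplicit false

namespace Pool.Agent.H568.NC

open Set Filter Topology

noncomputable section

open Classical in
/-- Distance of the values, `0` off the cone. -/
def dd (g : ℕ → ℝ) (s t : ℕ) : ℝ := if Cone s t then |g t - g s| else 0

/-- Running maximum of the distances. -/
def GG (g : ℕ → ℝ) (s : ℕ) : ℕ → ℝ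
  | 0 => 0
  | t + 1 => max (GG g s t) (dd g s t)

lemma dd_nonneg (g : ℕ → ℝ) (s t : ℕ) : 0 ≤ dd g s t := by
  unfold dd; split_ifs
  · exact abs_nonneg _
  · exact le_rfl

lemma GG_nonneg (g : ℕ → ℝ) (s t : ℕ) : 0 ≤ GG g s t := by
  induction t with
  | zero => exact le_rfl
  | succ t ih => exact ih.trans (le_max_left _ _)

lemma dd_le_GG (g : ℕ → ℝ) (s : ℕ) {u t : ℕ} (h : u < t) : dd g s u ≤ GG g s t := by
  induction t with
  | zero => omega
  | succ t ih =>
    rcases Nat.lt_succ_iff_lt_or_eq.1 h with h1 | h1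
    · exact (ih h1).trans (le_max_left _ _)
    · rw [h1]; exact le_max_right _ _

lemma rho_lt_iff {t : ℕ} {G d h : ℝ} (hh : 0 < h) : d < rho t G h ↔ Lam t G d < h := by
  unfold rho Lam
  rw [lt_max_iff, min_lt_iff]
  refine or_congr ?_ Iff.rfl
  have h5 : (1 / 2 : ℝ) ^ t * 2 ^ t = 1 := by rw [← mul_pow]; norm_num
  have h6 : (0 : ℝ) < 2 ^ t := by positivity
  have h7 : (0 : ℝ) < (1 / 2) ^ t := by positivity
  constructor
  · intro hx
    have h1 : max (d - G) 0 < (1 / 2) ^ t * h := by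
      rw [max_lt_iff]
      exact ⟨by linarith, by positivity⟩
    calc 2 ^ t * max (d - G) 0 < 2 ^ t * ((1 / 2) ^ t * h) := mul_lt_mul_of_pos_left h1 h6
      _ = ((1 / 2 : ℝ) ^ t * 2 ^ t) * h := by ring
      _ = h := by rw [h5, one_mul]
  · intro hx
    have h1 : (1 / 2 : ℝ) ^ t * (2 ^ t * max (d - G) 0) < (1 / 2) ^ t * h :=
      mul_lt_mul_of_pos_left hx h7
    have h2 : (1 / 2 : ℝ) ^ t * (2 ^ t * max (d - G) 0) = max (d - G) 0 := by
      rw [← mul_assoc, h5, one_mul]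
    rw [h2] at h1
    have := (max_lt_iff.1 h1).1
    linarith

lemma rho_gt {t : ℕ} {G h : ℝ} (hh : 0 < h) : G < rho t G h := by
  refine lt_of_lt_of_le ?_ (le_max_left _ _)
  have : (0 : ℝ) < (1 / 2) ^ t * h := by positivity
  linarith

lemma rho_ge {t : ℕ} {G h : ℝ} : h ≤ rho t G h := le_max_right _ _

lemma Lam_nonneg {t : ℕ} {G d : ℝ} (hd : 0 ≤ d) : 0 ≤ Lam t G d :=
  le_min (mul_nonneg (by positivity) (le_max_right _ _)) hd

lemma Lam_le {t : ℕ} {G d : ℝ} : Lam t G d ≤ d := min_le_right _ _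

/-! ### the intervals -/

open Classical in
/-- The nodes whose cone contains `t`, before `t`. -/
def Pd (t : ℕ) : Finset ℕ := insert 0 ((Finset.range t).filter fun s => Cone s t)

lemma Pd_nonempty (t : ℕ) : (Pd t).Nonempty := by
  classical
  exact ⟨0, Finset.mem_insert_self _ _⟩

lemma mem_Pd {s t : ℕ} (ht : t ≠ 0) : s ∈ Pd t ↔ s < t ∧ Cone s t := by
  classical
  have e : s ∈ Pd t ↔ s = 0 ∨ (s < t ∧ Cone s t) := by simp [Pd]
  rw [e]
  constructor
  · rintro (rfl | h)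
    · exact ⟨by omega, cone_zero t⟩
    · exact h
  · exact fun h => Or.inr h

/-- The lower end. -/
def lo (g : ℕ → ℝ) (h : ℕ × ℕ → ℝ) (t : ℕ) : ℝ :=
  (Pd t).sup' (Pd_nonempty t) fun s => g s - rho t (GG g s t) (h (s, t))

/-- The upper end. -/
def up (g : ℕ → ℝ) (h : ℕ × ℕ → ℝ) (t : ℕ) : ℝ :=
  (Pd t).inf' (Pd_nonempty t) fun s => g s + rho t (GG g s t) (h (s, t))

/-- The admissible pairs. -/
def Ad (g : ℕ → ℝ) (h : ℕ × ℕ → ℝ) : Prop :=
  ∀ s t, dd g s t < rho t (GG g s t) (h (s, t))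

lemma dd_congr {g g' : ℕ → ℝ} {s t : ℕ} (hs : g s = g' s) (ht : g t = g' t) :
    dd g s t = dd g' s t := by
  unfold dd; rw [hs, ht]

lemma GG_congr {g g' : ℕ → ℝ} {s t : ℕ} (hs : s < t) (h : ∀ i < t, g i = g' i) :
    GG g s t = GG g' s t := by
  have key : ∀ n, n ≤ t → GG g s n = GG g' s n := by
    intro n hn
    induction n with
    | zero => rfl
    | succ n ih =>
      show max _ _ = max _ _
      rw [ih (by omega), dd_congr (h s hs) (h n (by omega))]
  exact key t le_rfl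

lemma lo_congr {g g' : ℕ → ℝ} (h : ℕ × ℕ → ℝ) {t : ℕ} (ht : t ≠ 0) (hg : ∀ i < t, g i = g' i) :
    lo g h t = lo g' h t := by
  unfold lo
  refine Finset.sup'_congr _ rfl fun s hs => ?_
  have h1 := ((mem_Pd ht).1 hs).1
  rw [hg s h1, GG_congr h1 hg]

lemma up_congr {g g' : ℕ → ℝ} (h : ℕ × ℕ → ℝ) {t : ℕ} (ht : t ≠ 0) (hg : ∀ i < t, g i = g' i) :
    up g h t = up g' h t := by
  unfold up
  refine Finset.inf'_congr _ rfl fun s hs => ?_
  have h1 := ((mem_Pd ht).1 hs).1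
  rw [hg s h1, GG_congr h1 hg]

lemma lo_lt_of_ad {g : ℕ → ℝ} {h : ℕ × ℕ → ℝ} (ha : Ad g h) {t : ℕ} (ht : t ≠ 0) :
    lo g h t < g t := by
  unfold lo
  rw [Finset.sup'_lt_iff]
  intro s hs
  have h1 := (mem_Pd ht).1 hs
  have h2 := ha s t
  unfold dd at h2
  rw [if_pos h1.2] at h2
  have := (abs_lt.1 h2).1
  linarith

lemma lt_up_of_ad {g : ℕ → ℝ} {h : ℕ × ℕ → ℝ} (ha : Ad g h) {t : ℕ} (ht : t ≠ 0) :
    g t < up g h t := by
  unfold up
  rw [Finset.lt_inf'_iff]
  intro s hs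
  have h1 := (mem_Pd ht).1 hs
  have h2 := ha s t
  unfold dd at h2
  rw [if_pos h1.2] at h2
  have := (abs_lt.1 h2).2
  linarith

/-- The interval is nonempty, if the widths are positive. -/
lemma lo_lt_up (g : ℕ → ℝ) {h : ℕ × ℕ → ℝ} (hh : ∀ q, 0 < h q) {t : ℕ} (ht : t ≠ 0) :
    lo g h t < up g h t := by
  obtain ⟨p, hp, hmax⟩ := (Pd t).exists_max_image id (Pd_nonempty t)
  have hp1 := (mem_Pd ht).1 hp
  have key : ∀ s ∈ Pd t, |g p - g s| < rho t (GG g s t) (h (s, t)) := by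
    intro s hs
    have hs1 := (mem_Pd ht).1 hs
    have hc : Cone s p := Cone.chain hs1.2 hp1.2 (hmax s hs)
    have h2 : |g p - g s| = dd g s p := by unfold dd; rw [if_pos hc]
    rw [h2]
    exact (dd_le_GG g s hp1.1).trans_lt (rho_gt (hh _))
  have h1 : lo g h t < g p := by
    unfold lo
    rw [Finset.sup'_lt_iff]
    intro s hs
    have := (abs_lt.1 (key s hs)).1
    linarith
  have h2 : g p < up g h t := by
    unfold up
    rw [Finset.lt_inf'_iff]
    intro s hs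
    have := (abs_lt.1 (key s hs)).2
    linarith
  exact h1.trans h2

/-! ### decoding -/

/-- One step. -/
def stp (c : ℕ → ℝ) (h : ℕ × ℕ → ℝ) (t : ℕ) (g : ℕ → ℝ) : ℝ :=
  if t = 0 then c 0 else lo g h t + (up g h t - lo g h t) * sg (c t)

/-- Approximations. -/
def apx (c : ℕ → ℝ) (h : ℕ × ℕ → ℝ) : ℕ → ℕ → ℝ
  | 0 => 0
  | n + 1 => Function.update (apx c h n) n (stp c h n (apx c h n))

/-- The decoded function. -/
def dec (c : ℕ → ℝ) (h : ℕ × ℕ → ℝ) (t : ℕ) : ℝ := stp c h t (apx c h t)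

lemma apx_eq (c : ℕ → ℝ) (h : ℕ × ℕ → ℝ) {n i : ℕ} (hi : i < n) : apx c h n i = dec c h i := by
  induction n with
  | zero => omega
  | succ n ih =>
    show Function.update (apx c h n) n (stp c h n (apx c h n)) i = _
    rcases Nat.lt_succ_iff_lt_or_eq.1 hi with h1 | h1
    · rw [Function.update_of_ne (by omega), ih h1]
    · subst h1
      rw [Function.update_self]; rfl

lemma stp_congr {c : ℕ → ℝ} {h : ℕ × ℕ → ℝ} {t : ℕ} {g g' : ℕ → ℝ} (hg : ∀ i < t, g i = g' i) :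
    stp c h t g = stp c h t g' := by
  unfold stp
  split_ifs with h0
  · rfl
  · rw [lo_congr h h0 hg, up_congr h h0 hg]

lemma dec_eq (c : ℕ → ℝ) (h : ℕ × ℕ → ℝ) (t : ℕ) : dec c h t = stp c h t (dec c h) :=
  stp_congr fun _ hi => apx_eq c h hi

lemma dec_unique {c : ℕ → ℝ} {h : ℕ × ℕ → ℝ} {g : ℕ → ℝ} (hg : ∀ t, g t = stp c h t g) :
    dec c h = g := by
  funext t
  induction t using Nat.strong_induction_on with
  | _ t ih =>
    rw [dec_eq, hg t]
    exact stp_congr ih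

lemma continuous_dd {α : Type} [TopologicalSpace α] {g : α → ℕ → ℝ} (hg : Continuous g)
    (s t : ℕ) : Continuous fun a => dd (g a) s t := by
  unfold dd
  split_ifs
  · exact (((continuous_apply t).comp hg).sub ((continuous_apply s).comp hg)).abs
  · exact continuous_const

lemma continuous_GG {α : Type} [TopologicalSpace α] {g : α → ℕ → ℝ} (hg : Continuous g)
    (s t : ℕ) : Continuous fun a => GG (g a) s t := by
  induction t with
  | zero => exact continuous_const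
  | succ t ih => exact ih.max (continuous_dd hg s t)

lemma continuous_rho {α : Type} [TopologicalSpace α] {G h : α → ℝ} (t : ℕ) (hG : Continuous G)
    (hh : Continuous h) : Continuous fun a => rho t (G a) (h a) := by
  unfold rho
  exact (hG.add (continuous_const.mul hh)).max hh

lemma continuous_Lam {α : Type} [TopologicalSpace α] {G d : α → ℝ} (t : ℕ) (hG : Continuous G)
    (hd : Continuous d) : Continuous fun a => Lam t (G a) (d a) := by
  unfold Lam
  exact (continuous_const.mul ((hd.sub hG).max continuous_const)).min hd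

lemma continuous_lo {α : Type} [TopologicalSpace α] {g : α → ℕ → ℝ} {h : α → ℕ × ℕ → ℝ}
    (hg : Continuous g) (hh : Continuous h) (t : ℕ) : Continuous fun a => lo (g a) (h a) t := by
  unfold lo
  refine Continuous.finset_sup'_apply _ fun s _ => ?_
  exact ((continuous_apply s).comp hg).sub
    (continuous_rho t (continuous_GG hg s t) ((continuous_apply (s, t)).comp hh))

lemma continuous_up {α : Type} [TopologicalSpace α] {g : α → ℕ → ℝ} {h : α → ℕ × ℕ → ℝ}
    (hg : Continuous g) (hh : Continuous h) (t : ℕ) : Continuous fun a => up (g a) (h a) t := by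
  unfold up
  refine Continuous.finset_inf'_apply _ fun s _ => ?_
  exact ((continuous_apply s).comp hg).add
    (continuous_rho t (continuous_GG hg s t) ((continuous_apply (s, t)).comp hh))

lemma continuous_apx (n : ℕ) :
    Continuous fun p : (ℕ → ℝ) × (ℕ × ℕ → ℝ) => apx p.1 p.2 n := by
  induction n with
  | zero => exact continuous_const
  | succ n ih =>
    show Continuous fun p : (ℕ → ℝ) × (ℕ × ℕ → ℝ) =>
      Function.update (apx p.1 p.2 n) n (stp p.1 p.2 n (apx p.1 p.2 n))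
    refine ih.update n ?_
    unfold stp
    split_ifs
    · exact (continuous_apply 0).comp continuous_fst
    · exact (continuous_lo ih continuous_snd n).add (((continuous_up ih continuous_snd n).sub
        (continuous_lo ih continuous_snd n)).mul
        (continuous_sg.comp ((continuous_apply n).comp continuous_fst)))

lemma continuous_dec : Continuous fun p : (ℕ → ℝ) × (ℕ × ℕ → ℝ) => dec p.1 p.2 := by
  refine continuous_pi fun t => ?_
  have h : ∀ p : (ℕ → ℝ) × (ℕ × ℕ → ℝ), dec p.1 p.2 t = apx p.1 p.2 (t + 1) t :=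
    fun p => (apx_eq p.1 p.2 (Nat.lt_succ_self t)).symm
  simp only [h]
  exact (continuous_apply t).comp (continuous_apx (t + 1))

lemma ad_dec (c : ℕ → ℝ) {h : ℕ × ℕ → ℝ} (hh : ∀ q, 0 < h q) : Ad (dec c h) h := by
  intro s t
  by_cases hc : Cone s t
  · rcases eq_or_lt_of_le hc.1 with rfl | hst
    · have : dd (dec c h) s s = 0 := by unfold dd; rw [if_pos hc]; simp
      rw [this]
      exact (hh _).trans_le rho_ge
    · have ht : t ≠ 0 := by omega
      have hmem : s ∈ Pd t := (mem_Pd ht).2 ⟨hst, hc⟩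
      have hlt := lo_lt_up (dec c h) hh ht
      have e := dec_eq c h t
      rw [stp, if_neg ht] at e
      have s0 := sg_pos (c t)
      have s1 := sg_lt_one (c t)
      have h1 : lo (dec c h) h t < dec c h t := by
        rw [e]; nlinarith
      have h2 : dec c h t < up (dec c h) h t := by
        rw [e]; nlinarith
      have h3 : dec c h s - rho t (GG (dec c h) s t) (h (s, t)) ≤ lo (dec c h) h t :=
        Finset.le_sup' (fun s => dec c h s - rho t (GG (dec c h) s t) (h (s, t))) hmem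
      have h4 : up (dec c h) h t ≤ dec c h s + rho t (GG (dec c h) s t) (h (s, t)) :=
        Finset.inf'_le (fun s => dec c h s + rho t (GG (dec c h) s t) (h (s, t))) hmem
      unfold dd
      rw [if_pos hc, abs_lt]
      constructor <;> linarith
  · have : dd (dec c h) s t = 0 := by unfold dd; rw [if_neg hc]
    rw [this]
    exact (hh _).trans_le rho_ge

/-! ### no drift -/

lemma GG_le {g : ℕ → ℝ} {h : ℕ × ℕ → ℝ} (ha : Ad g h) {s : ℕ} {ε : ℝ} (hε : 0 ≤ ε)
    (hh : ∀ t, h (s, t) ≤ ε) (t : ℕ) :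
    GG g s t ≤ ε * (1 + ∑ i ∈ Finset.range t, (1 / 2 : ℝ) ^ i) := by
  induction t with
  | zero => simpa [GG] using hε
  | succ t ih =>
    have h0 : (0 : ℝ) ≤ (1 / 2) ^ t := by positivity
    have hsum : (0 : ℝ) ≤ ∑ i ∈ Finset.range t, (1 / 2 : ℝ) ^ i :=
      Finset.sum_nonneg fun _ _ => by positivity
    have hs : ε * (1 + ∑ i ∈ Finset.range (t + 1), (1 / 2 : ℝ) ^ i) =
        ε * (1 + ∑ i ∈ Finset.range t, (1 / 2 : ℝ) ^ i) + (1 / 2) ^ t * ε := by
      rw [Finset.sum_range_succ]; ring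
    have h1 : (1 / 2 : ℝ) ^ t * h (s, t) ≤ (1 / 2) ^ t * ε := mul_le_mul_of_nonneg_left (hh t) h0
    have h2 : ε ≤ ε * (1 + ∑ i ∈ Finset.range t, (1 / 2 : ℝ) ^ i) := by nlinarith
    have h3 : 0 ≤ (1 / 2 : ℝ) ^ t * ε := mul_nonneg h0 hε
    show max _ _ ≤ _
    rw [hs, max_le_iff]
    refine ⟨by linarith, (ha s t).le.trans ?_⟩
    unfold rho
    rw [max_le_iff]
    exact ⟨by linarith, by linarith [hh t]⟩

lemma abs_sub_le_of_ad {g : ℕ → ℝ} {h : ℕ × ℕ → ℝ} (ha : Ad g h) {s : ℕ} {ε : ℝ} (hε : 0 ≤ ε)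
    (hh : ∀ t, h (s, t) ≤ ε) {t : ℕ} (hc : Cone s t) : |g t - g s| ≤ 3 * ε := by
  have h1 : dd g s t ≤ GG g s (t + 1) := dd_le_GG g s (Nat.lt_succ_self t)
  have h2 := GG_le ha hε hh (t + 1)
  have h3 : ∑ i ∈ Finset.range (t + 1), (1 / 2 : ℝ) ^ i ≤ 2 := by
    have := summable_half.sum_le_tsum (Finset.range (t + 1)) (fun i _ => by positivity)
    rwa [tsum_geometric_two] at this
  unfold dd at h1
  rw [if_pos hc] at h1
  nlinarith

lemma mem_LM_of_ad {Y : Set (ℕ → Bool)} {g : ℕ → ℝ} {h : ℕ × ℕ → ℝ} (ha : Ad g h)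
    (hh : h ∈ EP (FP Y)) : g ∈ LM Y := by
  intro y hy
  have hne := Fy_neBot y
  have hcau : Cauchy (map g (Fy y)) := by
    rw [Metric.cauchy_iff]
    refine ⟨hne.map g, fun ε hε => ?_⟩
    have h1 : ∀ᶠ q in comap Prod.fst (Fy y), h q < ε / 12 :=
      (hh.2 _ ⟨y, hy, rfl⟩).eventually (gt_mem_nhds (by positivity))
    rw [eventually_comap] at h1
    obtain ⟨s, hs1, hs2⟩ := ((frequently_cone y).and_eventually h1).exists
    refine ⟨g '' {t | Cone s t}, image_mem_map hs1, ?_⟩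
    rintro _ ⟨t, ht, rfl⟩ _ ⟨u, hu, rfl⟩
    have hb : ∀ t, h (s, t) ≤ ε / 12 := fun t => (hs2 (s, t) rfl).le
    have e1 := abs_sub_le_of_ad ha (by positivity) hb ht
    have e2 := abs_sub_le_of_ad ha (by positivity) hb hu
    have e3 : dist (g t) (g u) ≤ dist (g t) (g s) + dist (g s) (g u) := dist_triangle _ _ _
    rw [Real.dist_eq, Real.dist_eq (g t), Real.dist_eq (g s), abs_sub_comm (g s)] at e3
    rw [Real.dist_eq]
    linarith
  obtain ⟨l, hl⟩ := CompleteSpace.complete hcau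
  exact ⟨l, hl⟩

/-- The reduction of widths. -/
def LamF (g : ℕ → ℝ) : ℕ × ℕ → ℝ := fun q => Lam q.2 (GG g q.1 q.2) (dd g q.1 q.2)

lemma LamF_nonneg (g : ℕ → ℝ) (q : ℕ × ℕ) : 0 ≤ LamF g q := Lam_nonneg (dd_nonneg _ _ _)

lemma LamF_tendsto {Y : Set (ℕ → Bool)} {g : ℕ → ℝ} (hg : g ∈ LM Y) {y : ℕ → Bool} (hy : y ∈ Y) :
    Tendsto (LamF g) (comap Prod.fst (Fy y)) (𝓝 0) := by
  obtain ⟨l, hl⟩ := hg y hy
  rw [Metric.tendsto_nhds]
  intro ε hε
  have h1 : {t | |g t - l| < ε / 2} ∈ Fy y := by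
    have := Metric.tendsto_nhds.1 hl (ε / 2) (by positivity)
    simp only [Real.dist_eq] at this
    exact this
  rw [eventually_comap]
  filter_upwards [eventually_cone h1] with s hs q hq
  rw [Real.dist_eq, sub_zero, abs_of_nonneg (LamF_nonneg g q)]
  refine (Lam_le.trans_lt ?_ : LamF g q < ε)
  subst hq
  unfold dd
  split_ifs with hc
  · have e1 := hs q.2 hc
    have e2 := hs q.1 (cone_refl _)
    have e3 : |g q.2 - g q.1| ≤ |g q.2 - l| + |g q.1 - l| := by
      have := abs_sub_le (g q.2) l (g q.1)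
      rwa [abs_sub_comm l] at this
    have e4 : |g q.2 - l| < ε / 2 := e1
    have e5 : |g q.1 - l| < ε / 2 := e2
    linarith
  · exact hε

/-- From parameters to functions. -/
def Kf (p : (ℕ → ℝ) × (ℕ × ℕ → ℝ)) : (ℕ → ℝ) × (ℕ × ℕ → ℝ) :=
  (dec p.1 p.2, fun q => p.2 q - LamF (dec p.1 p.2) q)

/-- The coordinates of a function in its intervals. -/
def cod (g : ℕ → ℝ) (h : ℕ × ℕ → ℝ) (t : ℕ) : ℝ :=
  if t = 0 then g 0 else lg ((g t - lo g h t) / (up g h t - lo g h t))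

/-- From functions to parameters. -/
def Kb (p : (ℕ → ℝ) × (ℕ × ℕ → ℝ)) : (ℕ → ℝ) × (ℕ × ℕ → ℝ) :=
  (cod p.1 (fun q => p.2 q + LamF p.1 q), fun q => p.2 q + LamF p.1 q)

lemma ad_iff {g : ℕ → ℝ} {h : ℕ × ℕ → ℝ} (hh : ∀ q, 0 < h q) : Ad g h ↔ ∀ q, LamF g q < h q := by
  constructor
  · rintro ha ⟨s, t⟩
    exact (rho_lt_iff (hh _)).1 (ha s t)
  · intro ha s t
    exact (rho_lt_iff (hh _)).2 (ha (s, t))

lemma Kf_mapsTo (Y : Set (ℕ → Bool)) :
    MapsTo Kf ((univ : Set (ℕ → ℝ)) ×ˢ EP (FP Y)) (LM Y ×ˢ EP (FP Y)) := by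
  rintro ⟨c, h⟩ ⟨-, hh⟩
  have ha := ad_dec c hh.1
  refine ⟨mem_LM_of_ad ha hh, fun q => sub_pos.2 ((ad_iff hh.1).1 ha q), fun F hF => ?_⟩
  refine squeeze_zero (fun q => (sub_pos.2 ((ad_iff hh.1).1 ha q)).le) (fun q => ?_) (hh.2 F hF)
  have := LamF_nonneg (dec c h) q
  show h q - LamF (dec c h) q ≤ h q
  linarith

lemma Kb_snd_mem {Y : Set (ℕ → Bool)} {p : (ℕ → ℝ) × (ℕ × ℕ → ℝ)}
    (hp : p ∈ LM Y ×ˢ EP (FP Y)) : (Kb p).2 ∈ EP (FP Y) := by
  refine ⟨fun q => add_pos_of_pos_of_nonneg (hp.2.1 q) (LamF_nonneg _ q), ?_⟩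
  rintro _ ⟨y, hy, rfl⟩
  have h := (hp.2.2 _ ⟨y, hy, rfl⟩).add (LamF_tendsto hp.1 hy)
  rw [add_zero] at h
  exact h

lemma Kb_ad {Y : Set (ℕ → Bool)} {p : (ℕ → ℝ) × (ℕ × ℕ → ℝ)}
    (hp : p ∈ LM Y ×ˢ EP (FP Y)) : Ad p.1 (Kb p).2 := by
  rw [ad_iff (Kb_snd_mem hp).1]
  intro q
  show LamF p.1 q < p.2 q + LamF p.1 q
  have := hp.2.1 q
  linarith

lemma Kb_mapsTo (Y : Set (ℕ → Bool)) :
    MapsTo Kb (LM Y ×ˢ EP (FP Y)) ((univ : Set (ℕ → ℝ)) ×ˢ EP (FP Y)) :=
  fun _ hp => ⟨mem_univ _, Kb_snd_mem hp⟩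

lemma frac_mem {l u x : ℝ} (h1 : l < x) (h2 : x < u) : (x - l) / (u - l) ∈ Ioo (0 : ℝ) 1 := by
  have : 0 < u - l := by linarith
  constructor
  · exact div_pos (by linarith) this
  · rw [div_lt_one this]; linarith

lemma dec_cod {g : ℕ → ℝ} {h : ℕ × ℕ → ℝ} (ha : Ad g h) : dec (cod g h) h = g := by
  refine dec_unique fun t => ?_
  unfold stp
  split_ifs with h0
  · subst h0
    unfold cod
    simp
  · unfold cod
    rw [if_neg h0]
    have h1 := lo_lt_of_ad ha h0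
    have h2 := lt_up_of_ad ha h0
    have hm := frac_mem h1 h2
    rw [sg_lg hm.1 hm.2]
    have h3 : up g h t - lo g h t ≠ 0 := by
      have : 0 < up g h t - lo g h t := by linarith
      exact this.ne'
    field_simp
    ring

lemma cod_dec (c : ℕ → ℝ) {h : ℕ × ℕ → ℝ} (hh : ∀ q, 0 < h q) : cod (dec c h) h = c := by
  funext t
  unfold cod
  split_ifs with h0
  · subst h0
    rw [dec_eq, stp, if_pos rfl]
  · have h1 := lo_lt_up (dec c h) hh h0
    have h3 : up (dec c h) h t - lo (dec c h) h t ≠ 0 := by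
      have : 0 < up (dec c h) h t - lo (dec c h) h t := by linarith
      exact this.ne'
    have e := dec_eq c h t
    rw [stp, if_neg h0] at e
    have e2 : (dec c h t - lo (dec c h) h t) / (up (dec c h) h t - lo (dec c h) h t) =
        sg (c t) := by
      rw [div_eq_iff h3]
      linarith
    rw [e2, lg_sg]

lemma Kb_Kf {Y : Set (ℕ → Bool)} {p : (ℕ → ℝ) × (ℕ × ℕ → ℝ)}
    (hp : p ∈ (univ : Set (ℕ → ℝ)) ×ˢ EP (FP Y)) : Kb (Kf p) = p := by
  have e : (fun q => (Kf p).2 q + LamF (Kf p).1 q) = p.2 := by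
    funext q
    show p.2 q - LamF (dec p.1 p.2) q + LamF (dec p.1 p.2) q = p.2 q
    ring
  unfold Kb
  rw [e]
  refine Prod.ext ?_ rfl
  exact cod_dec p.1 hp.2.1

lemma Kf_Kb {Y : Set (ℕ → Bool)} {p : (ℕ → ℝ) × (ℕ × ℕ → ℝ)}
    (hp : p ∈ LM Y ×ˢ EP (FP Y)) : Kf (Kb p) = p := by
  have e : dec (Kb p).1 (Kb p).2 = p.1 := dec_cod (Kb_ad hp)
  unfold Kf
  rw [e]
  refine Prod.ext rfl ?_
  funext q
  show p.2 q + LamF p.1 q - LamF p.1 q = p.2 q
  ring

lemma bijOn_Kf (Y : Set (ℕ → Bool)) :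
    BijOn Kf ((univ : Set (ℕ → ℝ)) ×ˢ EP (FP Y)) (LM Y ×ˢ EP (FP Y)) :=
  InvOn.bijOn ⟨fun _ hp => Kb_Kf hp, fun _ hp => Kf_Kb hp⟩ (Kf_mapsTo Y) (Kb_mapsTo Y)

lemma bijOn_Kb (Y : Set (ℕ → Bool)) :
    BijOn Kb (LM Y ×ˢ EP (FP Y)) ((univ : Set (ℕ → ℝ)) ×ˢ EP (FP Y)) :=
  InvOn.bijOn ⟨fun _ hp => Kf_Kb hp, fun _ hp => Kb_Kf hp⟩ (Kb_mapsTo Y) (Kf_mapsTo Y)

lemma continuous_LamF {α : Type} [TopologicalSpace α] {g : α → ℕ → ℝ} (hg : Continuous g)
    (q : ℕ × ℕ) : Continuous fun a => LamF (g a) q :=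
  continuous_Lam _ (continuous_GG hg _ _) (continuous_dd hg _ _)

lemma continuous_Kf : Continuous Kf := by
  unfold Kf
  refine continuous_dec.prodMk (continuous_pi fun q => ?_)
  exact ((continuous_apply q).comp continuous_snd).sub (continuous_LamF continuous_dec q)

lemma continuous_Kb_snd : Continuous fun p => (Kb p).2 :=
  continuous_pi fun q => ((continuous_apply q).comp continuous_snd).add
    (continuous_LamF continuous_fst q)

lemma continuousOn_Kb (Y : Set (ℕ → Bool)) : ContinuousOn Kb (LM Y ×ˢ EP (FP Y)) := by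
  refine ContinuousOn.prodMk (f := fun p => (Kb p).1) (continuousOn_pi.2 fun t => ?_)
    continuous_Kb_snd.continuousOn
  show ContinuousOn (fun p => cod p.1 (Kb p).2 t) _
  unfold cod
  split_ifs with h0
  · exact ((continuous_apply 0).comp continuous_fst).continuousOn
  · refine continuousOn_lg.comp (ContinuousOn.div ?_ ?_ ?_) ?_
    · exact (((continuous_apply t).comp continuous_fst).sub
        (continuous_lo continuous_fst continuous_Kb_snd t)).continuousOn
    · exact ((continuous_up continuous_fst continuous_Kb_snd t).sub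
        (continuous_lo continuous_fst continuous_Kb_snd t)).continuousOn
    · intro p hp
      have := lo_lt_up p.1 (Kb_snd_mem hp).1 h0
      linarith
    · intro p hp
      exact frac_mem (lo_lt_of_ad (Kb_ad hp) h0) (lt_up_of_ad (Kb_ad hp) h0)

theorem cd_LM (Y : Set (ℕ → Bool)) :
    Cd (LM Y ×ˢ EP (FP Y)) ((univ : Set (ℕ → ℝ)) ×ˢ EP (FP Y)) :=
  ⟨Kb, continuousOn_Kb Y, bijOn_Kb Y⟩

theorem cd_CM_LM (Y : Set (ℕ → Bool)) : Cd (CM Y) (LM Y) := by
  refine ⟨Prod.fst, continuous_fst.continuousOn, fun p hp y hy => ⟨_, hp ⟨y, hy⟩⟩, ?_, ?_⟩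
  · rintro ⟨g, f⟩ hp ⟨g', f'⟩ hp' (rfl : g = g')
    refine Prod.ext rfl (funext fun y => ?_)
    have := Fy_neBot y.1
    exact tendsto_nhds_unique (hp y) (hp' y)
  · intro g hg
    choose l hl using hg
    exact ⟨(g, fun y => l y.1 y.2), fun y => hl y.1 y.2, rfl⟩

end

end Pool.Agent.H568.NC
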