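import Mathlib

/-!
Definitions for the nonlinear condensation problem (MP_1f8704_gt, Q2).
-/

set_option autoImplicit false

namespace Pool.Agent.H568.NC

open Set Filter Topology

noncomputable section

universe u v w

/-- Some map, continuous on `A`, maps `A` bijectively onto `B`. -/
def Cd {α : Type u} {β : Type v} [TopologicalSpace α] [TopologicalSpace β]
    (A : Set α) (B : Set β) : Prop :=
  ∃ f : α → β, ContinuousOn f A ∧ BijOn f A B

/-- The sets `A` and `B` are homeomorphic, by mutually inverse maps. -/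
def He {α : Type u} {β : Type v} [TopologicalSpace α] [TopologicalSpace β]
    (A : Set α) (B : Set β) : Prop :=
  ∃ (f : α → β) (g : β → α), ContinuousOn f A ∧ ContinuousOn g B ∧ MapsTo f A B ∧ MapsTo g B A ∧
    (∀ x ∈ A, g (f x) = x) ∧ (∀ y ∈ B, f (g y) = y)

section He

variable {α : Type u} {β : Type v} {γ : Type w} {δ : Type w} [TopologicalSpace α]
  [TopologicalSpace β] [TopologicalSpace γ] [TopologicalSpace δ]
  {A : Set α} {B : Set β} {C : Set γ} {D : Set δ}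

lemma He.symm (h : He A B) : He B A := by
  obtain ⟨f, g, hf, hg, mf, mg, h1, h2⟩ := h
  exact ⟨g, f, hg, hf, mg, mf, h2, h1⟩

lemma He.cd (h : He A B) : Cd A B := by
  obtain ⟨f, g, hf, hg, mf, mg, h1, h2⟩ := h
  exact ⟨f, hf, InvOn.bijOn ⟨h1, h2⟩ mf mg⟩

lemma He.cd' (h : He A B) : Cd B A := h.symm.cd

lemma He.refl (A : Set α) : He A A :=
  ⟨id, id, continuousOn_id, continuousOn_id, mapsTo_id _, mapsTo_id _, fun _ _ => rfl,
    fun _ _ => rfl⟩

lemma He.trans (h : He A B) (h' : He B C) : He A C := by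
  obtain ⟨f, g, hf, hg, mf, mg, h1, h2⟩ := h
  obtain ⟨f', g', hf', hg', mf', mg', h1', h2'⟩ := h'
  refine ⟨f' ∘ f, g ∘ g', hf'.comp hf mf, hg.comp hg' mg', mf'.comp mf, mg.comp mg', ?_, ?_⟩
  · intro x hx
    show g (g' (f' (f x))) = x
    rw [h1' _ (mf hx), h1 _ hx]
  · intro y hy
    show f' (f (g (g' y))) = y
    rw [h2 _ (mg' hy), h2' _ hy]

lemma He.prod (h : He A B) (h' : He C D) : He (A ×ˢ C) (B ×ˢ D) := by
  obtain ⟨f, g, hf, hg, mf, mg, h1, h2⟩ := h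
  obtain ⟨f', g', hf', hg', mf', mg', h1', h2'⟩ := h'
  refine ⟨Prod.map f f', Prod.map g g', hf.prodMap hf', hg.prodMap hg', mf.prodMap mf',
    mg.prodMap mg', ?_, ?_⟩
  · rintro ⟨x, y⟩ ⟨hx, hy⟩
    show (g (f x), g' (f' y)) = (x, y)
    rw [h1 _ hx, h1' _ hy]
  · rintro ⟨x, y⟩ ⟨hx, hy⟩
    show (f (g x), f' (g' y)) = (x, y)
    rw [h2 _ hx, h2' _ hy]

lemma He.swap (A : Set α) (B : Set β) : He (A ×ˢ B) (B ×ˢ A) :=
  ⟨Prod.swap, Prod.swap, continuous_swap.continuousOn, continuous_swap.continuousOn,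
    fun _ h => ⟨h.2, h.1⟩, fun _ h => ⟨h.2, h.1⟩, fun _ _ => rfl, fun _ _ => rfl⟩

lemma He.assoc (A : Set α) (B : Set β) (C : Set γ) : He ((A ×ˢ B) ×ˢ C) (A ×ˢ (B ×ˢ C)) :=
  ⟨fun p => (p.1.1, p.1.2, p.2), fun p => ((p.1, p.2.1), p.2.2), by fun_prop, by fun_prop,
    fun _ h => ⟨h.1.1, h.1.2, h.2⟩, fun _ h => ⟨⟨h.1, h.2.1⟩, h.2.2⟩, fun _ _ => rfl,
    fun _ _ => rfl⟩

lemma Cd.refl (A : Set α) : Cd A A := (He.refl A).cd

lemma Cd.trans (h : Cd A B) (h' : Cd B C) : Cd A C := by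
  obtain ⟨f, hf, bf⟩ := h
  obtain ⟨f', hf', bf'⟩ := h'
  exact ⟨f' ∘ f, hf'.comp hf bf.mapsTo, bf'.comp bf⟩

lemma Cd.prod (h : Cd A B) (h' : Cd C D) : Cd (A ×ˢ C) (B ×ˢ D) := by
  obtain ⟨f, hf, bf⟩ := h
  obtain ⟨f', hf', bf'⟩ := h'
  exact ⟨Prod.map f f', hf.prodMap hf', bf.prodMap bf'⟩

end He

/-- Positive functions tending to `0` along all filters of the family `F`. -/
def EP {I : Type u} (F : Set (Filter I)) : Set (I → ℝ) :=
  {h | (∀ i, 0 < h i) ∧ ∀ c ∈ F, Tendsto h c (𝓝 0)}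

/-- Functions with values in `ℝ^ℕ` all whose coordinates tend to `0` along all filters of the
family `F`. -/
def EW {I : Type u} (F : Set (Filter I)) : Set (I → ℕ → ℝ) :=
  {x | ∀ c ∈ F, ∀ k, Tendsto (fun i => x i k) c (𝓝 0)}

/-- The label of `t`, a point of the Cantor set (binary digits of `t + 1`, least first). -/
def lab (t : ℕ) : ℕ → Bool := fun i => Nat.testBit (t + 1) i

/-- The level of `t`. -/
def lev (t : ℕ) : ℕ := Nat.log 2 (t + 1)

/-- The cone of `s`. -/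
def Cone (s t : ℕ) : Prop := s ≤ t ∧ ∀ i < lev s, lab t i = lab s i

/-- The filter of convergence to the point `y` of the Cantor set. -/
def Fy (y : ℕ → Bool) : Filter ℕ := comap lab (𝓝 y) ⊓ atTop

/-- The filters on `ℕ` given by the points of `Y`. -/
def FT (Y : Set (ℕ → Bool)) : Set (Filter ℕ) := Fy '' Y

/-- The filters on `ℕ × ℕ` given by the points of `Y`: convergence of the first coordinate,
uniformly in the second one. -/
def FP (Y : Set (ℕ → Bool)) : Set (Filter (ℕ × ℕ)) := (fun y => comap Prod.fst (Fy y)) '' Y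

/-- The filters on `ℕ × ℕ`: second coordinate to infinity, first one fixed. -/
def FQ : Set (Filter (ℕ × ℕ)) := range fun s : ℕ => map (fun n => (s, n)) atTop

/-- Restrictions to `ℕ` of the functions that converge along all points of `Y`. -/
def LM (Y : Set (ℕ → Bool)) : Set (ℕ → ℝ) := {g | ∀ y ∈ Y, ∃ l, Tendsto g (Fy y) (𝓝 l)}

/-- The space of the continuous functions on `ℕ ∪ Y`. -/
def CM (Y : Set (ℕ → Bool)) : Set ((ℕ → ℝ) × (Y → ℝ)) :=
  {p | ∀ y : Y, Tendsto p.1 (Fy y) (𝓝 (p.2 y))}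

/-- Strictly decreasing positive sequences with limit `0`. -/
def Dd : Set (ℕ → ℝ) := {r | (∀ n, 0 < r n) ∧ (∀ n, r (n + 1) < r n) ∧ Tendsto r atTop (𝓝 0)}

/-- Families of such sequences. -/
def DdF : Set (ℕ → ℕ → ℝ) := {r | ∀ s, r s ∈ Dd}

/-- Nonnegative functions tending to infinity along `Y`. -/
def AT (Y : Set (ℕ → Bool)) : Set (ℕ → ℝ) :=
  {a | (∀ s, 0 ≤ a s) ∧ ∀ y ∈ Y, Tendsto a (Fy y) atTop}

/-- `m ↦ rho t G h` is the running soft maximum. -/
def rho (t : ℕ) (G h : ℝ) : ℝ := max (G + (1 / 2) ^ t * h) h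

/-- The inverse of `rho`. -/
def Lam (t : ℕ) (G d : ℝ) : ℝ := min (2 ^ t * max (d - G) 0) d

/-- The `n`-th value of the block with code `(a, r)`. -/
def blk (a : ℝ) (r : ℕ → ℝ) : ℕ → ℝ
  | 0 => 1 / (a + r 0)
  | n + 1 => min (2 ^ (n + 1) * (1 / (a + r (n + 1)) - 1 / (a + r n))) (1 / (a + r (n + 1)))

end

end Pool.Agent.H568.NC
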