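import Pool.Agent.H568.NC.Defs

/-!
Cones of the binary tree and the filters `Fy`.
-/

set_option autoImplicit false

namespace Pool.Agent.H568.NC

open Set Filter Topology

noncomputable section

private lemma lev_mono {s t : ℕ} (h : s ≤ t) : lev s ≤ lev t :=
  Nat.log_mono_right (by omega)

private lemma lev_zero : lev 0 = 0 := by
  simp [lev]

theorem cone_refl (s : ℕ) : Cone s s := ⟨le_rfl, fun _ _ => rfl⟩

theorem Cone.trans {s t u : ℕ} (h : Cone s t) (h' : Cone t u) : Cone s u :=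
  ⟨h.1.trans h'.1, fun i hi => (h'.2 i (hi.trans_le (lev_mono h.1))).trans (h.2 i hi)⟩

theorem cone_zero (t : ℕ) : Cone 0 t :=
  ⟨Nat.zero_le t, fun i hi => by rw [lev_zero] at hi; exact absurd hi (Nat.not_lt_zero i)⟩

theorem Cone.chain {s s' t : ℕ} (h : Cone s t) (h' : Cone s' t) (hs : s ≤ s') : Cone s s' :=
  ⟨hs, fun i hi => (h'.2 i (hi.trans_le (lev_mono hs))).symm.trans (h.2 i hi)⟩

private lemma mem_nhds_cyl {y : ℕ → Bool} {U : Set (ℕ → Bool)} (hU : U ∈ 𝓝 y) :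
    ∃ n : ℕ, ∀ z : ℕ → Bool, (∀ i < n, z i = y i) → z ∈ U := by
  obtain ⟨V, hVU, hV, hy⟩ := mem_nhds_iff.1 hU
  obtain ⟨I, u, hu, hs⟩ := isOpen_pi_iff.1 hV y hy
  refine ⟨I.sup id + 1, fun z hz => hVU (hs fun i hi => ?_)⟩
  rw [hz i (Nat.lt_succ_of_le (Finset.le_sup (f := id) hi))]
  exact (hu i hi).2

private lemma cyl_mem_nhds (y : ℕ → Bool) (n : ℕ) : {z : ℕ → Bool | ∀ i < n, z i = y i} ∈ 𝓝 y := by
  have h1 : ∀ᶠ z : ℕ → Bool in 𝓝 y, ∀ i ∈ Finset.range n, z i = y i := by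
    rw [Finset.eventually_all]
    intro i _
    exact (continuous_apply i).continuousAt.eventually
      (by simp [nhds_discrete] : ∀ᶠ b : Bool in 𝓝 (y i), b = y i)
  filter_upwards [h1] with z hz i hi
  exact hz i (Finset.mem_range.2 hi)

private lemma mem_Fy {y : ℕ → Bool} {A : Set ℕ} :
    A ∈ Fy y ↔ ∃ n m : ℕ, ∀ t, m ≤ t → (∀ i < n, lab t i = y i) → t ∈ A := by
  constructor
  · intro h
    obtain ⟨B, hB, C, hC, hA⟩ := mem_inf_iff_superset.1 h
    obtain ⟨U, hU, hUB⟩ := hB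
    obtain ⟨n, hn⟩ := mem_nhds_cyl hU
    obtain ⟨m, hm⟩ := mem_atTop_sets.1 hC
    exact ⟨n, m, fun t ht hl => hA ⟨hUB (hn _ hl), hm t ht⟩⟩
  · rintro ⟨n, m, h⟩
    have h1 : lab ⁻¹' {z : ℕ → Bool | ∀ i < n, z i = y i} ∈ comap lab (𝓝 y) :=
      preimage_mem_comap (cyl_mem_nhds y n)
    exact mem_of_superset (inter_mem_inf h1 (Ici_mem_atTop m)) fun t ht => h t ht.2 ht.1

/-- The node of level `N` on the branch `y`. -/
private def nd (y : ℕ → Bool) (N : ℕ) : ℕ := 2 ^ N + Nat.ofBits (fun i : Fin N => y i) - 1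

private lemma nd_add (y : ℕ → Bool) (N : ℕ) :
    nd y N + 1 = 2 ^ N + Nat.ofBits (fun i : Fin N => y i) := by
  have := Nat.one_le_two_pow (n := N)
  unfold nd
  omega

private lemma lev_nd (y : ℕ → Bool) (N : ℕ) : lev (nd y N) = N := by
  unfold lev
  rw [nd_add]
  have := Nat.ofBits_lt_two_pow (fun i : Fin N => y i)
  rw [Nat.log_eq_iff (Or.inr ⟨by omega, by positivity⟩)]
  constructor
  · omega
  · rw [pow_succ]
    omega

private lemma lab_nd (y : ℕ → Bool) {N i : ℕ} (hi : i < N) : lab (nd y N) i = y i := by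
  unfold lab
  rw [nd_add, Nat.testBit_two_pow_add_gt hi, Nat.testBit_ofBits_lt _ _ hi]

private lemma le_nd (y : ℕ → Bool) (N : ℕ) : N ≤ nd y N := by
  have h1 := nd_add y N
  have h2 := Nat.lt_two_pow_self (n := N)
  omega

theorem frequently_cone (y : ℕ → Bool) : ∃ᶠ s in Fy y, ∀ᶠ t in Fy y, Cone s t := by
  intro h
  obtain ⟨n, m, h1⟩ := mem_Fy.1 h
  refine h1 (nd y (max n m)) (le_trans (le_max_right n m) (le_nd y _))
    (fun i hi => lab_nd y (lt_max_of_lt_left hi)) ?_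
  refine mem_Fy.2 ⟨max n m, nd y (max n m), fun t ht hl => ⟨ht, fun i hi => ?_⟩⟩
  rw [lev_nd] at hi
  rw [hl i hi, lab_nd y hi]

theorem Fy_neBot (y : ℕ → Bool) : (Fy y).NeBot := by
  rw [neBot_iff]
  intro h
  have h1 := frequently_cone y
  rw [h] at h1
  exact h1 (by simp)

theorem Fy_le_atTop (y : ℕ → Bool) : Fy y ≤ atTop := inf_le_right

theorem eventually_cone {y : ℕ → Bool} {A : Set ℕ} (hA : A ∈ Fy y) :
    ∀ᶠ s in Fy y, ∀ t, Cone s t → t ∈ A := by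
  obtain ⟨n, m, h⟩ := mem_Fy.1 hA
  refine mem_Fy.2 ⟨n, max m (2 ^ n), fun s hs hl t hst => ?_⟩
  have h1 : n ≤ lev s := by
    unfold lev
    exact Nat.le_log_of_pow_le (by norm_num) (by have := le_max_right m (2 ^ n); omega)
  refine h t (le_trans (le_trans (le_max_left _ _) hs) hst.1) fun i hi => ?_
  rw [hst.2 i (hi.trans_le h1), hl i hi]

theorem FT_le {Y : Set (ℕ → Bool)} : ∀ c ∈ FT Y, c ≤ cofinite := by
  rintro _ ⟨y, _, rfl⟩
  rw [Nat.cofinite_eq_atTop]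
  exact Fy_le_atTop y

theorem FP_le {Y : Set (ℕ → Bool)} : ∀ c ∈ FP Y, c ≤ cofinite := by
  rintro _ ⟨y, _, rfl⟩
  intro A hA
  obtain ⟨M, hM⟩ := ((mem_cofinite.1 hA).image Prod.fst).bddAbove
  refine ⟨Ioi M, Fy_le_atTop y (Ioi_mem_atTop M), fun p hp => ?_⟩
  by_contra hpA
  exact absurd (hM (mem_image_of_mem Prod.fst hpA)) (not_le.2 hp)

theorem FQ_le : ∀ c ∈ FQ, c ≤ cofinite := by
  rintro _ ⟨s, rfl⟩
  rw [← Nat.cofinite_eq_atTop]
  exact (Prod.mk_right_injective s).tendsto_cofinite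

end

end Pool.Agent.H568.NC
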